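import Mathlib

/-!
Growth of the numbers of rational curves in projective three-space.
-/

namespace Pool.Agent.Results.MP_4d4b4c_ag.RationalCurveGrowth

open Finset Filter Topology

/-- Product of two exponential generating series: if `F` and `G` are the coefficient arrays of
`∑ F d a b * exp (d x) * y ^ a / a! * z ^ b / b!` and of the same series for `G`, then `conv F G`
is the coefficient array of their product. -/
def conv (F G : ℕ → ℕ → ℕ → ℚ) (d a b : ℕ) : ℚ :=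
  ∑ u ∈ antidiagonal d, ∑ v ∈ antidiagonal a, ∑ w ∈ antidiagonal b,
    (a.choose v.1 : ℚ) * (b.choose w.1 : ℚ) * F u.1 v.1 w.1 * G u.2 v.2 w.2

/-- Coefficient array of the derivative of order `i` in `x`, `j` in `y` and `k` in `z` of the
series with coefficient array `N`. -/
def der (i j k : ℕ) (N : ℕ → ℕ → ℕ → ℚ) (d a b : ℕ) : ℚ := (d : ℚ) ^ i * N d (a + j) (b + k)

/-- The characterisation of the genus-zero curve counts of projective three-space by the
associativity (WDVV) equations of Kontsevich-Manin, Ruan-Tian and Fulton-Pandharipande: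
`N d a b` is the number of rational curves of degree `d` that meet `a` general lines and pass
through `b` general points. It vanishes unless `d ≥ 1` and `a + 2 b = 4 d`, there is one line
through two points, and the series `Γ = ∑ N d a b * exp (d x) * y ^ a / a! * z ^ b / b!` satisfies
the five equations
`2 Γ₁₂₃ - Γ₂₂₂ = Γ₁₁₁ Γ₂₂₂ - Γ₁₁₂ Γ₁₂₂`, `Γ₁₃₃ - Γ₂₂₃ = Γ₁₁₁ Γ₂₂₃ - Γ₁₁₃ Γ₁₂₂`,
`Γ₂₃₃ = 2 Γ₁₁₃ Γ₁₂₃ - Γ₁₁₁ Γ₂₃₃ - Γ₁₁₂ Γ₁₃₃`, `Γ₂₃₃ = Γ₁₁₃ Γ₂₂₂ - Γ₁₁₂ Γ₂₂₃`,
`Γ₃₃₃ = Γ₁₂₃ ^ 2 - Γ₁₂₂ Γ₁₃₃ + Γ₁₁₃ Γ₂₂₃ - Γ₁₁₂ Γ₂₃₃`. -/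
structure IsCurveCount (N : ℕ → ℕ → ℕ → ℚ) : Prop where
  deg_zero : ∀ a b, N 0 a b = 0
  dimension : ∀ d a b, a + 2 * b ≠ 4 * d → N d a b = 0
  line : N 1 0 2 = 1
  wdvv1 : ∀ d a b, 2 * der 1 1 1 N d a b - der 0 3 0 N d a b =
    conv (der 3 0 0 N) (der 0 3 0 N) d a b - conv (der 2 1 0 N) (der 1 2 0 N) d a b
  wdvv2 : ∀ d a b, der 1 0 2 N d a b - der 0 2 1 N d a b =
    conv (der 3 0 0 N) (der 0 2 1 N) d a b - conv (der 2 0 1 N) (der 1 2 0 N) d a b
  wdvv3 : ∀ d a b, der 0 1 2 N d a b = 2 * conv (der 2 0 1 N) (der 1 1 1 N) d a b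
    - conv (der 3 0 0 N) (der 0 1 2 N) d a b - conv (der 2 1 0 N) (der 1 0 2 N) d a b
  wdvv4 : ∀ d a b, der 0 1 2 N d a b =
    conv (der 2 0 1 N) (der 0 3 0 N) d a b - conv (der 2 1 0 N) (der 0 2 1 N) d a b
  wdvv5 : ∀ d a b, der 0 0 3 N d a b = conv (der 1 1 1 N) (der 1 1 1 N) d a b
    - conv (der 1 2 0 N) (der 1 0 2 N) d a b + conv (der 2 0 1 N) (der 0 2 1 N) d a b
    - conv (der 2 1 0 N) (der 0 1 2 N) d a b

/-- The counts divided by `(2 p)! (2 d - p)!`, given by an explicit recursion in the degree `d`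
and in `p`. -/
def f : ℕ → ℕ → ℚ
  | 0, _ => 0
  | 1, 0 => 1 / 2
  | (d + 2), 0 =>
      (∑ i : Fin (d + 1), 4 * ((i + 1 : ℕ) : ℚ) ^ 2 * (((d + 1 - i : ℕ) : ℚ) - ((i + 1 : ℕ) : ℚ))
          * f (i + 1) 0 * f (d + 1 - i) 1)
        / (2 * (d + 2) * (2 * (d + 2) - 1) * (2 * (d + 2) - 2))
  | (d + 1), (p + 1) =>
      if 2 * (d + 1) < p + 1 then 0 else
      (((d : ℚ) + 1) * (2 * (d + 1) - p) * (2 * (d + 1) + p - 1) / 2 * f (d + 1) p
        + ∑ i : Fin d, ∑ j : Fin (p + 2), ((i + 1 : ℕ) : ℚ) ^ 3 * ((p + 1 - j : ℕ) : ℚ)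
            * (2 * ((p + 1 - j : ℕ) : ℚ) - 1) * f (i + 1) j * f (d - i) (p + 1 - j))
        / ((p + 1) * (2 * p + 1) * (2 * d + 1))
termination_by d p => (d, p)
decreasing_by
  all_goals simp_wf
  all_goals first
    | (apply Prod.Lex.left; omega)
    | (apply Prod.Lex.right; omega)

/-- `curveCount d p` is the number of rational curves of degree `d` in projective three-space
that pass through `2 d - p` general points and meet `2 p` general lines, for `p ≤ 2 d`. -/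
def curveCount (d p : ℕ) : ℚ := ((2 * p).factorial : ℚ) * ((2 * d - p).factorial : ℚ) * f d p

lemma f_zero (p : ℕ) : f 0 p = 0 := by
  rw [f]

lemma f_out (d p : ℕ) (h : 2 * d < p) : f d p = 0 := by
  rcases d with _ | d
  · exact f_zero p
  · rcases p with _ | p
    · omega
    · rw [f, if_pos h]

lemma f_one_zero : f 1 0 = 1 / 2 := by
  rw [f]

lemma f_top (d : ℕ) : 2 * (d : ℚ) * (2 * d - 1) * (2 * d - 2) * f d 0 =
    ∑ u ∈ antidiagonal d, 4 * (u.1 : ℚ) ^ 2 * (u.2 - u.1) * f u.1 0 * f u.2 1 := by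
  rcases d with _ | _ | d
  · simp [f_zero]
  · simp [Finset.Nat.antidiagonal_succ, f_zero]
  · have key : ∀ S : ℚ, 2 * ((d + 1 + 1 : ℕ) : ℚ) * (2 * ((d + 1 + 1 : ℕ) : ℚ) - 1)
        * (2 * ((d + 1 + 1 : ℕ) : ℚ) - 2) *
        (S / (2 * ((d : ℚ) + 2) * (2 * (d + 2) - 1) * (2 * (d + 2) - 2))) = S := by
      intro S
      have : (0 : ℚ) ≤ d := Nat.cast_nonneg d
      have h2 : 0 < 2 * ((d : ℚ) + 2) := by linarith
      have h3 : 0 < (2 * ((d : ℚ) + 2) - 1) := by linarith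
      have h4 : 0 < (2 * ((d : ℚ) + 2) - 2) := by linarith
      have h1 : 0 < (2 * ((d : ℚ) + 2) * (2 * (d + 2) - 1) * (2 * (d + 2) - 2)) := by positivity
      have e : 2 * ((d + 1 + 1 : ℕ) : ℚ) * (2 * ((d + 1 + 1 : ℕ) : ℚ) - 1)
        * (2 * ((d + 1 + 1 : ℕ) : ℚ) - 2) = (2 * ((d : ℚ) + 2) * (2 * (d + 2) - 1) * (2 * (d + 2) - 2)) := by
        push_cast; ring
      rw [e]
      exact mul_div_cancel₀ S h1.ne'
    rw [f, key]
    rw [Finset.Nat.sum_antidiagonal_eq_sum_range_succ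
      (fun i j => 4 * (i : ℚ) ^ 2 * (j - i) * f i 0 * f j 1) (d + 1 + 1)]
    rw [Finset.sum_range_succ, Finset.sum_range_succ', ← Finset.sum_range
      (fun i => 4 * ((i + 1 : ℕ) : ℚ) ^ 2 * (((d + 1 - i : ℕ) : ℚ) - ((i + 1 : ℕ) : ℚ))
          * f (i + 1) 0 * f (d + 1 - i) 1)]
    have h5 : ∀ i : ℕ, d + 1 + 1 - (i + 1) = d + 1 - i := fun i => by omega
    simp only [h5, Nat.sub_self, f_zero, mul_zero, add_zero, Nat.cast_zero, ne_eq,
      OfNat.ofNat_ne_zero, not_false_eq_true, zero_pow, zero_mul]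

lemma f_rec (d p : ℕ) (hp : 1 ≤ p) (hd : p ≤ 2 * d) :
    (p : ℚ) * (2 * p - 1) * (2 * d - 1) * f d p =
      (d : ℚ) * (2 * d - p + 1) * (2 * d + p - 2) / 2 * f d (p - 1)
      + ∑ u ∈ antidiagonal d, ∑ v ∈ antidiagonal p,
          (u.1 : ℚ) ^ 3 * v.2 * (2 * v.2 - 1) * f u.1 v.1 * f u.2 v.2 := by
  rcases d with _ | d
  · omega
  rcases p with _ | p
  · omega
  have key : ∀ A S : ℚ, ((p + 1 : ℕ) : ℚ) * (2 * ((p + 1 : ℕ) : ℚ) - 1) * (2 * ((d + 1 : ℕ) : ℚ) - 1) *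
      ((((d : ℚ) + 1) * (2 * (d + 1) - p) * (2 * (d + 1) + p - 1) / 2 * A + S)
        / ((p + 1) * (2 * p + 1) * (2 * d + 1))) =
      ((d + 1 : ℕ) : ℚ) * (2 * ((d + 1 : ℕ) : ℚ) - ((p + 1 : ℕ) : ℚ) + 1) *
        (2 * ((d + 1 : ℕ) : ℚ) + ((p + 1 : ℕ) : ℚ) - 2) / 2 * A + S := by
    intro A S
    have h1 : (((p : ℚ) + 1) * (2 * p + 1) * (2 * d + 1)) ≠ 0 := by positivity
    have e : ((p + 1 : ℕ) : ℚ) * (2 * ((p + 1 : ℕ) : ℚ) - 1) * (2 * ((d + 1 : ℕ) : ℚ) - 1) =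
      (((p : ℚ) + 1) * (2 * p + 1) * (2 * d + 1)) := by push_cast; ring
    rw [e, mul_div_cancel₀ _ h1]
    push_cast
    ring
  rw [f, if_neg (by omega), key]
  rw [Finset.Nat.sum_antidiagonal_eq_sum_range_succ
      (fun i j => ∑ v ∈ antidiagonal (p + 1), (i : ℚ) ^ 3 * v.2 * (2 * v.2 - 1) * f i v.1 * f j v.2)
      (d + 1)]
  rw [Finset.sum_range_succ, Finset.sum_range_succ', ← Finset.sum_range
      (fun i => ∑ j : Fin (p + 2), ((i + 1 : ℕ) : ℚ) ^ 3 * ((p + 1 - j : ℕ) : ℚ)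
            * (2 * ((p + 1 - j : ℕ) : ℚ) - 1) * f (i + 1) j * f (d - i) (p + 1 - j))]
  have h5 : ∀ i : ℕ, d + 1 - (i + 1) = d - i := fun i => by omega
  have h6 : ∀ i : ℕ, ∑ j : Fin (p + 2), ((i + 1 : ℕ) : ℚ) ^ 3 * ((p + 1 - j : ℕ) : ℚ)
            * (2 * ((p + 1 - j : ℕ) : ℚ) - 1) * f (i + 1) j * f (d - i) (p + 1 - j) =
      ∑ v ∈ antidiagonal (p + 1), ((i + 1 : ℕ) : ℚ) ^ 3 * v.2 * (2 * v.2 - 1) * f (i + 1) v.1 *
        f (d - i) v.2 := by
    intro i
    rw [Finset.Nat.sum_antidiagonal_eq_sum_range_succ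
      (fun a b => ((i + 1 : ℕ) : ℚ) ^ 3 * b * (2 * b - 1) * f (i + 1) a * f (d - i) b) (p + 1)]
    rw [← Finset.sum_range
      (fun j => ((i + 1 : ℕ) : ℚ) ^ 3 * ((p + 1 - j : ℕ) : ℚ)
            * (2 * ((p + 1 - j : ℕ) : ℚ) - 1) * f (i + 1) j * f (d - i) (p + 1 - j))]
  simp only [h5, h6, Nat.sub_self, f_zero, mul_zero, Finset.sum_const_zero, add_zero,
    Nat.add_sub_cancel, Nat.cast_zero, ne_eq, OfNat.ofNat_ne_zero, not_false_eq_true, zero_pow,
    zero_mul]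

lemma f_nonneg_of (h0 : ∀ d, 0 ≤ f d 0) : ∀ d p, 0 ≤ f d p := by
  intro d
  induction d using Nat.strong_induction_on with
  | _ d ihd =>
    intro p
    induction p with
    | zero => exact h0 d
    | succ p ihp =>
      by_cases h : 2 * d < p + 1
      · rw [f_out _ _ h]
      · have hd : 1 ≤ d := by omega
        have hr := f_rec d (p + 1) (by omega) (by omega)
        have hdq : (1 : ℚ) ≤ d := by exact_mod_cast hd
        have hpq : ((p : ℚ) + 1) ≤ 2 * d := by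
          have : p + 1 ≤ 2 * d := by omega
          exact_mod_cast this
        have hp0 : (0 : ℚ) ≤ p := Nat.cast_nonneg p
        have hL : 0 < ((p + 1 : ℕ) : ℚ) * (2 * ((p + 1 : ℕ) : ℚ) - 1) * (2 * d - 1) := by
          push_cast
          have a1 : 0 < (p : ℚ) + 1 := by linarith
          have a2 : 0 < 2 * ((p : ℚ) + 1) - 1 := by linarith
          have a3 : 0 < 2 * (d : ℚ) - 1 := by linarith
          positivity
        have hR : 0 ≤ (d : ℚ) * (2 * d - ((p + 1 : ℕ) : ℚ) + 1) * (2 * d + ((p + 1 : ℕ) : ℚ) - 2) / 2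
            * f d (p + 1 - 1) + ∑ u ∈ antidiagonal d, ∑ v ∈ antidiagonal (p + 1),
          (u.1 : ℚ) ^ 3 * v.2 * (2 * v.2 - 1) * f u.1 v.1 * f u.2 v.2 := by
          apply add_nonneg
          · have b1 : 0 ≤ (d : ℚ) := by linarith
            have b2 : 0 ≤ 2 * (d : ℚ) - ((p + 1 : ℕ) : ℚ) + 1 := by push_cast; linarith
            have b3 : 0 ≤ 2 * (d : ℚ) + ((p + 1 : ℕ) : ℚ) - 2 := by push_cast; linarith
            have b4 : 0 ≤ f d (p + 1 - 1) := by simpa using ihp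
            positivity
          · apply Finset.sum_nonneg
            intro u hu
            apply Finset.sum_nonneg
            intro v hv
            rw [Finset.HasAntidiagonal.mem_antidiagonal] at hu hv
            have c1 : 0 ≤ (v.2 : ℚ) * (2 * v.2 - 1) := by
              rcases Nat.eq_zero_or_pos v.2 with h | h
              · simp [h]
              · have : (1 : ℚ) ≤ v.2 := by exact_mod_cast h
                nlinarith
            rcases Nat.eq_zero_or_pos u.1 with h1 | h1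
            · simp [h1]
            rcases Nat.eq_zero_or_pos u.2 with h2 | h2
            · rw [h2, f_zero]; simp
            have c2 : 0 ≤ f u.1 v.1 := ihd u.1 (by omega) v.1
            have c3 : 0 ≤ f u.2 v.2 := ihd u.2 (by omega) v.2
            have : (u.1 : ℚ) ^ 3 * v.2 * (2 * v.2 - 1) * f u.1 v.1 * f u.2 v.2 =
              (u.1 : ℚ) ^ 3 * ((v.2 : ℚ) * (2 * v.2 - 1)) * f u.1 v.1 * f u.2 v.2 := by ring
            rw [this]
            positivity
        rw [← hr] at hR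
        exact nonneg_of_mul_nonneg_right hR hL


theorem j9477_sym (d : ℕ) (F : ℕ → ℕ → ℕ → ℚ) :
    ∑ u ∈ antidiagonal d, ∑ w ∈ antidiagonal u.2, F u.1 w.1 w.2 =
      ∑ u ∈ antidiagonal d, ∑ w ∈ antidiagonal u.2, F w.1 u.1 w.2 := by
  rw [Finset.sum_sigma', Finset.sum_sigma']
  refine Finset.sum_nbij' (fun x => ⟨(x.2.1, x.1.1 + x.2.2), (x.1.1, x.2.2)⟩)
    (fun x => ⟨(x.2.1, x.1.1 + x.2.2), (x.1.1, x.2.2)⟩) ?_ ?_ ?_ ?_ ?_
  · rintro ⟨⟨i, j⟩, ⟨k, l⟩⟩ h
    simp only [mem_sigma, HasAntidiagonal.mem_antidiagonal] at h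
    rw [mem_sigma]
    refine ⟨HasAntidiagonal.mem_antidiagonal.2 ?_, HasAntidiagonal.mem_antidiagonal.2 rfl⟩
    show k + (i + l) = d
    omega
  · rintro ⟨⟨i, j⟩, ⟨k, l⟩⟩ h
    simp only [mem_sigma, HasAntidiagonal.mem_antidiagonal] at h
    rw [mem_sigma]
    refine ⟨HasAntidiagonal.mem_antidiagonal.2 ?_, HasAntidiagonal.mem_antidiagonal.2 rfl⟩
    show k + (i + l) = d
    omega
  · rintro ⟨⟨i, j⟩, ⟨k, l⟩⟩ h
    simp only [mem_sigma, HasAntidiagonal.mem_antidiagonal] at h ⊢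
    rw [h.2]
  · rintro ⟨⟨i, j⟩, ⟨k, l⟩⟩ h
    simp only [mem_sigma, HasAntidiagonal.mem_antidiagonal] at h ⊢
    rw [h.2]
  · rintro ⟨⟨i, j⟩, ⟨k, l⟩⟩ h
    rfl

theorem j9477_W (i k l : ℕ) (hi : 1 ≤ i) (hk : 1 ≤ k) (hl : 1 ≤ l) :
    0 ≤ ((k : ℚ) + l - i) * k / (2 * (k + l) - 1) + ((i : ℚ) + l - k) * i / (2 * (i + l) - 1) := by
  have hi' : (1 : ℚ) ≤ i := by exact_mod_cast hi
  have hk' : (1 : ℚ) ≤ k := by exact_mod_cast hk
  have hl' : (1 : ℚ) ≤ l := by exact_mod_cast hl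
  have h1 : (0 : ℚ) < 2 * (k + l) - 1 := by linarith
  have h2 : (0 : ℚ) < 2 * (i + l) - 1 := by linarith
  have h3 : ((k : ℚ) + l - i) * k / (2 * (k + l) - 1) + ((i : ℚ) + l - k) * i / (2 * (i + l) - 1) =
      ((2 * l - 1) * (k ^ 2 + i ^ 2 + (k + i) * l) + 2 * i * k) /
        ((2 * (k + l) - 1) * (2 * (i + l) - 1)) := by
    rw [div_add_div _ _ h1.ne' h2.ne']
    congr 1
    ring
  rw [h3]
  apply div_nonneg _ (mul_pos h1 h2).le
  have h4 : (0 : ℚ) ≤ 2 * l - 1 := by linarith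
  positivity

theorem top_nonneg (g v : ℕ → ℚ) (g0 : g 0 = 0) (v0 : v 0 = 0) (g1 : 0 ≤ g 1)
    (T1 : ∀ d : ℕ, 1 ≤ d → (2 * (d : ℚ) - 1) * (v d - g d) =
      ∑ u ∈ antidiagonal d, (u.1 : ℚ) * g u.1 * v u.2)
    (T2 : ∀ d : ℕ, 1 ≤ d → (2 * (d : ℚ) - 1) * ((d : ℚ) - 1) * g d =
      (d : ℚ) * ∑ u ∈ antidiagonal d, ((u.2 : ℚ) - u.1) * g u.1 * v u.2) :
    ∀ d, 0 ≤ g d ∧ 0 ≤ v d := by
  have hv : ∀ d, 1 ≤ d → (∀ m, m < d → 0 ≤ g m ∧ 0 ≤ v m) → 0 ≤ g d → 0 ≤ v d := by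
    intro d hd ih hg
    have h1 := T1 d hd
    have h2 : 0 ≤ ∑ u ∈ antidiagonal d, (u.1 : ℚ) * g u.1 * v u.2 := by
      refine Finset.sum_nonneg fun u hu => ?_
      rw [HasAntidiagonal.mem_antidiagonal] at hu
      rcases Nat.eq_zero_or_pos u.1 with h | h
      · rw [h]; simp
      · rcases Nat.eq_zero_or_pos u.2 with h' | h'
        · rw [h', v0, mul_zero]
        · exact mul_nonneg (mul_nonneg (Nat.cast_nonneg _) (ih u.1 (by omega)).1)
            (ih u.2 (by omega)).2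
    rw [← h1] at h2
    have hd' : (1 : ℚ) ≤ d := by exact_mod_cast hd
    have h3 : (0 : ℚ) < 2 * (d : ℚ) - 1 := by linarith
    have h4 := nonneg_of_mul_nonneg_right h2 h3
    linarith
  intro d
  induction d using Nat.strong_induction_on with
  | _ d ih =>
    rcases Nat.eq_zero_or_pos d with h0 | h0
    · subst h0
      rw [g0, v0]
      exact ⟨le_rfl, le_rfl⟩
    rcases Nat.eq_or_lt_of_le h0 with h1 | h1
    · have h1' : d = 1 := h1.symm
      subst h1'
      exact ⟨g1, hv 1 le_rfl ih g1⟩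
    have hg : 0 ≤ g d := by
      have hh : ∀ j : ℕ, v j - g j =
          (∑ w ∈ antidiagonal j, (w.1 : ℚ) * g w.1 * v w.2) / (2 * (j : ℚ) - 1) := by
        intro j
        rcases Nat.eq_zero_or_pos j with hj | hj
        · subst hj
          simp [g0, v0]
        · have hj' : (1 : ℚ) ≤ j := by exact_mod_cast hj
          rw [← T1 j hj, mul_div_cancel_left₀]
          linarith
      have hz : ∑ u ∈ antidiagonal d, ((u.2 : ℚ) - u.1) * g u.1 * g u.2 = 0 := by
        have e1 := Finset.Nat.sum_antidiagonal_swap (n := d)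
          (f := fun u => ((u.2 : ℚ) - u.1) * g u.1 * g u.2)
        have e2 : ∑ u ∈ antidiagonal d, (fun u : ℕ × ℕ => ((u.2 : ℚ) - u.1) * g u.1 * g u.2) u.swap =
            - ∑ u ∈ antidiagonal d, ((u.2 : ℚ) - u.1) * g u.1 * g u.2 := by
          rw [← Finset.sum_neg_distrib]
          refine Finset.sum_congr rfl fun u _ => ?_
          simp only [Prod.fst_swap, Prod.snd_swap]
          ring
        rw [e2] at e1
        linarith
      set F : ℕ → ℕ → ℕ → ℚ := fun i k l =>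
        (((k : ℚ) + l - i) * k / (2 * (k + l) - 1)) * (g i * g k * v l) with hF
      have hS : ∑ u ∈ antidiagonal d, ((u.2 : ℚ) - u.1) * g u.1 * v u.2 =
          ∑ u ∈ antidiagonal d, ∑ w ∈ antidiagonal u.2, F u.1 w.1 w.2 := by
        have e1 : ∑ u ∈ antidiagonal d, ((u.2 : ℚ) - u.1) * g u.1 * v u.2 =
            ∑ u ∈ antidiagonal d, ((u.2 : ℚ) - u.1) * g u.1 * (v u.2 - g u.2) := by
          rw [← sub_zero (∑ u ∈ antidiagonal d, ((u.2 : ℚ) - u.1) * g u.1 * v u.2), ← hz,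
            ← Finset.sum_sub_distrib]
          exact Finset.sum_congr rfl fun u _ => by ring
        rw [e1]
        refine Finset.sum_congr rfl fun u _ => ?_
        rw [hh, ← mul_div_assoc, Finset.mul_sum, Finset.sum_div]
        refine Finset.sum_congr rfl fun w hw => ?_
        rw [HasAntidiagonal.mem_antidiagonal] at hw
        have e2 : (u.2 : ℚ) = w.1 + w.2 := by rw [← hw]; push_cast; rfl
        rw [hF, e2]
        ring
      have h2S : 0 ≤ ∑ u ∈ antidiagonal d, ((u.2 : ℚ) - u.1) * g u.1 * v u.2 := by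
        have e1 : 2 * ∑ u ∈ antidiagonal d, ((u.2 : ℚ) - u.1) * g u.1 * v u.2 =
            ∑ u ∈ antidiagonal d, ∑ w ∈ antidiagonal u.2, (F u.1 w.1 w.2 + F w.1 u.1 w.2) := by
          simp only [Finset.sum_add_distrib]
          rw [← j9477_sym d F, ← hS]
          ring
        have e2 : 0 ≤ ∑ u ∈ antidiagonal d, ∑ w ∈ antidiagonal u.2,
            (F u.1 w.1 w.2 + F w.1 u.1 w.2) := by
          refine Finset.sum_nonneg fun u hu => Finset.sum_nonneg fun w hw => ?_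
          rw [HasAntidiagonal.mem_antidiagonal] at hu hw
          have e3 : F u.1 w.1 w.2 + F w.1 u.1 w.2 =
              (((w.1 : ℚ) + w.2 - u.1) * w.1 / (2 * (w.1 + w.2) - 1) +
                ((u.1 : ℚ) + w.2 - w.1) * u.1 / (2 * (u.1 + w.2) - 1)) *
                (g u.1 * g w.1 * v w.2) := by
            rw [hF]
            ring
          rw [e3]
          rcases Nat.eq_zero_or_pos u.1 with ha | ha
          · rw [ha, g0]; simp
          rcases Nat.eq_zero_or_pos w.1 with hb | hb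
          · rw [hb, g0]; simp
          rcases Nat.eq_zero_or_pos w.2 with hc | hc
          · rw [hc, v0]; simp
          refine mul_nonneg (j9477_W u.1 w.1 w.2 ha hb hc) ?_
          exact mul_nonneg (mul_nonneg (ih u.1 (by omega)).1 (ih w.1 (by omega)).1)
            (ih w.2 (by omega)).2
        linarith
      have h3 := T2 d h0
      have hd' : (2 : ℚ) ≤ d := by exact_mod_cast h1
      have h4 : (0 : ℚ) < (2 * (d : ℚ) - 1) * ((d : ℚ) - 1) := by
        apply mul_pos <;> linarith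
      have h5 : 0 ≤ (2 * (d : ℚ) - 1) * ((d : ℚ) - 1) * g d := by
        rw [h3]
        exact mul_nonneg (by linarith) h2S
      exact nonneg_of_mul_nonneg_right h5 h4
    exact ⟨hg, hv d h0 ih hg⟩

theorem cc_aux (m n : ℕ) : (∀ p : ℕ,
    ∑ v ∈ antidiagonal p, (m + v.1).choose (2 * v.1) * (n + v.2).choose (2 * v.2)
      ≤ (m + n + p).choose (2 * p)) ∧ (∀ p : ℕ,
    ∑ v ∈ antidiagonal p, (m + v.1).choose (2 * v.1) * (n + v.2 + 1).choose (2 * v.2 + 1)
      ≤ (m + n + p + 1).choose (2 * p + 1)) := by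
  induction n with
  | zero =>
    have h1 : ∀ p : ℕ, ∑ v ∈ antidiagonal p,
        (m + v.1).choose (2 * v.1) * (0 + v.2).choose (2 * v.2) = (m + p).choose (2 * p) := by
      intro p
      rw [Finset.sum_eq_single (p, 0)]
      · simp
      · rintro ⟨i, j⟩ hij hne
        rw [HasAntidiagonal.mem_antidiagonal] at hij
        simp only at hij ⊢
        have hj : 0 < j := by
          rcases Nat.eq_zero_or_pos j with h | h
          · subst h
            exfalso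
            apply hne
            simp only [Nat.add_zero] at hij
            rw [hij]
          · exact h
        rw [Nat.choose_eq_zero_of_lt (show 0 + j < 2 * j by omega), Nat.mul_zero]
      · intro h
        exfalso
        apply h
        rw [HasAntidiagonal.mem_antidiagonal]
        simp
    have h2 : ∀ p : ℕ, ∑ v ∈ antidiagonal p,
        (m + v.1).choose (2 * v.1) * (0 + v.2 + 1).choose (2 * v.2 + 1) =
          (m + p).choose (2 * p) := by
      intro p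
      rw [Finset.sum_eq_single (p, 0)]
      · simp
      · rintro ⟨i, j⟩ hij hne
        rw [HasAntidiagonal.mem_antidiagonal] at hij
        simp only at hij ⊢
        have hj : 0 < j := by
          rcases Nat.eq_zero_or_pos j with h | h
          · subst h
            exfalso
            apply hne
            simp only [Nat.add_zero] at hij
            rw [hij]
          · exact h
        rw [Nat.choose_eq_zero_of_lt (show 0 + j + 1 < 2 * j + 1 by omega), Nat.mul_zero]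
      · intro h
        exfalso
        apply h
        rw [HasAntidiagonal.mem_antidiagonal]
        simp
    refine ⟨fun p => ?_, fun p => ?_⟩
    · rw [h1, Nat.add_zero]
    · rw [h2, Nat.add_zero, Nat.choose_succ_succ]
      exact Nat.le_add_right _ _
  | succ n ih =>
    obtain ⟨ih1, ih2⟩ := ih
    have h1 : ∀ p : ℕ, ∑ v ∈ antidiagonal p,
        (m + v.1).choose (2 * v.1) * (n + 1 + v.2).choose (2 * v.2)
          ≤ (m + (n + 1) + p).choose (2 * p) := by
      intro p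
      cases p with
      | zero => simp
      | succ q =>
        have e1 := Finset.Nat.sum_antidiagonal_succ' (n := q) (f := fun v : ℕ × ℕ =>
          (m + v.1).choose (2 * v.1) * (n + 1 + v.2).choose (2 * v.2))
        have e2 := Finset.Nat.sum_antidiagonal_succ' (n := q) (f := fun v : ℕ × ℕ =>
          (m + v.1).choose (2 * v.1) * (n + v.2).choose (2 * v.2))
        have e3 : ∀ v : ℕ × ℕ, (n + 1 + (v.2 + 1)).choose (2 * (v.2 + 1)) =
            (n + v.2 + 1).choose (2 * v.2 + 1) + (n + (v.2 + 1)).choose (2 * (v.2 + 1)) := by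
          intro v
          rw [show n + 1 + (v.2 + 1) = (n + v.2 + 1) + 1 by ring,
            show 2 * (v.2 + 1) = (2 * v.2 + 1) + 1 by ring, Nat.choose_succ_succ]
          rfl
        have e4 : (m + (n + 1) + (q + 1)).choose (2 * (q + 1)) =
            (m + n + q + 1).choose (2 * q + 1) + (m + n + (q + 1)).choose (2 * (q + 1)) := by
          rw [show m + (n + 1) + (q + 1) = (m + n + q + 1) + 1 by ring,
            show 2 * (q + 1) = (2 * q + 1) + 1 by ring, Nat.choose_succ_succ]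
          rfl
        have i1 := ih1 (q + 1)
        have i2 := ih2 q
        simp only at e1 e2
        rw [e2] at i1
        rw [e1, e4]
        have e5 : ∑ v ∈ antidiagonal q, (m + v.1).choose (2 * v.1) *
            (n + 1 + (v.2 + 1)).choose (2 * (v.2 + 1)) =
            ∑ v ∈ antidiagonal q, (m + v.1).choose (2 * v.1) * (n + v.2 + 1).choose (2 * v.2 + 1) +
            ∑ v ∈ antidiagonal q, (m + v.1).choose (2 * v.1) *
              (n + (v.2 + 1)).choose (2 * (v.2 + 1)) := by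
          rw [← Finset.sum_add_distrib]
          apply Finset.sum_congr rfl
          intro v _
          rw [e3, Nat.mul_add]
        rw [e5]
        simp only [Nat.mul_zero, Nat.choose_zero_right, Nat.mul_one] at i1 ⊢
        omega
    refine ⟨h1, fun p => ?_⟩
    have e1 : ∀ v : ℕ × ℕ, (n + 1 + v.2 + 1).choose (2 * v.2 + 1) =
        (n + 1 + v.2).choose (2 * v.2) + (n + v.2 + 1).choose (2 * v.2 + 1) := by
      intro v
      rw [Nat.choose_succ_succ, show n + v.2 + 1 = n + 1 + v.2 by ring]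
    have e2 : (m + (n + 1) + p + 1).choose (2 * p + 1) =
        (m + (n + 1) + p).choose (2 * p) + (m + n + p + 1).choose (2 * p + 1) := by
      rw [Nat.choose_succ_succ, show m + n + p + 1 = m + (n + 1) + p by ring]
    have e3 : ∑ v ∈ antidiagonal p, (m + v.1).choose (2 * v.1) *
        (n + 1 + v.2 + 1).choose (2 * v.2 + 1) =
        ∑ v ∈ antidiagonal p, (m + v.1).choose (2 * v.1) * (n + 1 + v.2).choose (2 * v.2) +
        ∑ v ∈ antidiagonal p, (m + v.1).choose (2 * v.1) * (n + v.2 + 1).choose (2 * v.2 + 1) := by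
      rw [← Finset.sum_add_distrib]
      apply Finset.sum_congr rfl
      intro v _
      rw [e1, Nat.mul_add]
    rw [e3, e2]
    exact Nat.add_le_add (h1 p) (ih2 p)

theorem choose_conv (m n p : ℕ) :
    ∑ v ∈ antidiagonal p, (m + v.1).choose (2 * v.1) * (n + v.2).choose (2 * v.2)
      ≤ (m + n + p).choose (2 * p) := by
  exact (cc_aux m n).1 p

theorem j9479_a (n : ℕ) : ∑ k ∈ range (n + 2), 1 / ((k : ℚ)) ^ 2 ≤ 2 - 1 / ((n : ℚ) + 1) := by
  induction n with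
  | zero => simp [Finset.sum_range_succ]; norm_num
  | succ n ih =>
    rw [Finset.sum_range_succ]
    have h1 : (0 : ℚ) ≤ (n : ℚ) := Nat.cast_nonneg n
    have h : 1 / (((n + 2 : ℕ) : ℚ)) ^ 2 ≤ 1 / ((n : ℚ) + 1) - 1 / ((n : ℚ) + 2) := by
      push_cast
      rw [div_sub_div _ _ (by positivity) (by positivity), div_le_div_iff₀ (by positivity) (by positivity)]
      nlinarith [sq_nonneg (n : ℚ), mul_nonneg h1 h1]
    have e : ((n + 1 : ℕ) : ℚ) + 1 = (n : ℚ) + 2 := by push_cast; ring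
    rw [e]
    linarith

theorem j9479_b (d : ℕ) (hd : 1 ≤ d) : ∑ u ∈ antidiagonal d, 1 / ((u.1 : ℚ)) ^ 2 ≤ 2 := by
  rw [Finset.Nat.sum_antidiagonal_eq_sum_range_succ_mk]
  obtain ⟨n, rfl⟩ : ∃ n, d = n + 1 := ⟨d - 1, by omega⟩
  have := j9479_a n
  have h2 : (0 : ℚ) ≤ 1 / ((n : ℚ) + 1) := by positivity
  simp only [Nat.succ_eq_add_one] at *
  have h3 : n + 1 + 1 = n + 2 := rfl
  linarith

theorem j9479_c (d : ℕ) (hd : 1 ≤ d) : ∑ u ∈ antidiagonal d, 1 / ((u.2 : ℚ)) ^ 2 ≤ 2 := by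
  have := j9479_b d hd
  rw [← Finset.Nat.sum_antidiagonal_swap] at this
  simpa using this

theorem sum_inv_le (d : ℕ) (hd : 1 ≤ d) :
    ∑ u ∈ antidiagonal d, (if 1 ≤ u.1 ∧ 1 ≤ u.2 then 1 / ((u.1 : ℚ) * (u.2 : ℚ) ^ 2) else 0)
      ≤ 4 / (d : ℚ) := by
  have hd' : (0 : ℚ) < d := by exact_mod_cast hd
  have hb := j9479_b d hd
  have hc := j9479_c d hd
  have key : ∀ u ∈ antidiagonal d, (if 1 ≤ u.1 ∧ 1 ≤ u.2 then 1 / ((u.1 : ℚ) * (u.2 : ℚ) ^ 2) else 0)
      ≤ (1 / (d : ℚ)) * ((1 / 2) * (1 / ((u.1 : ℚ)) ^ 2) + (3 / 2) * (1 / ((u.2 : ℚ)) ^ 2)) := by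
    intro u hu
    rw [HasAntidiagonal.mem_antidiagonal] at hu
    split_ifs with h
    · obtain ⟨h1, h2⟩ := h
      have h1' : (0 : ℚ) < u.1 := by exact_mod_cast h1
      have h2' : (0 : ℚ) < u.2 := by exact_mod_cast h2
      have hs : (d : ℚ) = u.1 + u.2 := by exact_mod_cast hu.symm
      have e1 : 1 / ((u.1 : ℚ) * (u.2 : ℚ) ^ 2)
          = (1 / (d : ℚ)) * ((1 / (u.1 : ℚ)) * (1 / (u.2 : ℚ)) + (1 / (u.2 : ℚ)) ^ 2) := by
        rw [hs]; field_simp; ring
      rw [e1]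
      apply mul_le_mul_of_nonneg_left _ (by positivity)
      have e2 : 1 / ((u.1 : ℚ)) ^ 2 = (1 / (u.1 : ℚ)) ^ 2 := by rw [one_div_pow]
      have e3 : 1 / ((u.2 : ℚ)) ^ 2 = (1 / (u.2 : ℚ)) ^ 2 := by rw [one_div_pow]
      rw [e2, e3]
      nlinarith [sq_nonneg (1 / (u.1 : ℚ) - 1 / (u.2 : ℚ))]
    · positivity
  refine (Finset.sum_le_sum key).trans ?_
  rw [← Finset.mul_sum, Finset.sum_add_distrib, ← Finset.mul_sum, ← Finset.mul_sum]
  have : (4 : ℚ) / d = (1 / d) * 4 := by ring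
  rw [this]
  apply mul_le_mul_of_nonneg_left _ (by positivity)
  linarith

theorem ws_aux1 (N w : ℕ) : ((w : ℚ) + 1) * (2 * w + 1) * ((N + 2).choose (2 * w + 2) : ℚ)
    = ((N : ℚ) + 2) * (N + 1) / 2 * (N.choose (2 * w) : ℚ) := by
  have h2 : ((2 * w + 2).choose 2 : ℚ) = ((w : ℚ) + 1) * (2 * w + 1) := by
    rw [Nat.cast_choose_two]; push_cast; ring
  have h3 : ((N + 2).choose 2 : ℚ) = ((N : ℚ) + 2) * (N + 1) / 2 := by
    rw [Nat.cast_choose_two]; push_cast; ring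
  by_cases h : 2 * w + 2 ≤ N + 2
  · have h1 := Nat.choose_mul (n := N + 2) (k := 2 * w + 2) (s := 2) (by omega)
    have e1 : N + 2 - 2 = N := by omega
    have e2 : 2 * w + 2 - 2 = 2 * w := by omega
    rw [e1, e2] at h1
    have h4 : (((N + 2).choose (2 * w + 2) : ℕ) : ℚ) * ((2 * w + 2).choose 2 : ℕ)
        = ((N + 2).choose 2 : ℕ) * (N.choose (2 * w) : ℕ) := by exact_mod_cast h1
    rw [h2, h3] at h4
    linarith
  · push Not at h
    rw [Nat.choose_eq_zero_of_lt h, Nat.choose_eq_zero_of_lt (by omega : N < 2 * w)]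
    simp

theorem ws_aux2 (b w : ℕ) (hb : 1 ≤ b) :
    ((w : ℚ) + 1) * (2 * w + 1) * ((2 * b + (w + 1)).choose (2 * (w + 1)) : ℚ)
      ≤ 8 * (b : ℚ) ^ 2 * (((2 * b - 1) + w).choose (2 * w) : ℚ) := by
  have e1 : 2 * b + (w + 1) = ((2 * b - 1) + w) + 2 := by omega
  have e2 : 2 * (w + 1) = 2 * w + 2 := by ring
  rw [e1, e2, ws_aux1]
  by_cases h : w + 1 ≤ 2 * b
  · have hc : (((2 * b - 1) + w : ℕ) : ℚ) = 2 * b - 1 + w := by
      push_cast [Nat.cast_sub (by omega : 1 ≤ 2 * b)]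
      ring
    have h1 : ((w : ℚ) + 1) ≤ 2 * b := by exact_mod_cast h
    have h0 : (0 : ℚ) ≤ w := by positivity
    have hb' : (1 : ℚ) ≤ b := by exact_mod_cast hb
    refine mul_le_mul_of_nonneg_right ?_ (by positivity)
    rw [hc]
    nlinarith
  · push Not at h
    rw [Nat.choose_eq_zero_of_lt (by omega : (2 * b - 1) + w < 2 * w)]
    simp

theorem weight_sum
    (hc : ∀ m n p : ℕ, ∑ v ∈ antidiagonal p,
      (m + v.1).choose (2 * v.1) * (n + v.2).choose (2 * v.2) ≤ (m + n + p).choose (2 * p))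
    (a b p : ℕ) (ha : 1 ≤ a) (hb : 1 ≤ b) (hp : 1 ≤ p) :
    ∑ v ∈ antidiagonal p, (v.2 : ℚ) * (2 * v.2 - 1) * ((2 * a + v.1).choose (2 * v.1) : ℚ)
        * ((2 * b + v.2).choose (2 * v.2) : ℚ)
      ≤ 4 * (b : ℚ) ^ 2 / ((a : ℚ) + b) ^ 2 * ((p : ℚ) * (2 * p - 1))
        * ((2 * (a + b) + p).choose (2 * p) : ℚ) := by
  obtain ⟨q, rfl⟩ : ∃ q, p = q + 1 := ⟨p - 1, by omega⟩
  rw [Finset.Nat.sum_antidiagonal_succ']
  have hz : (((q + 1, 0) : ℕ × ℕ).2 : ℚ) * (2 * ((q + 1, 0) : ℕ × ℕ).2 - 1)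
      * ((2 * a + ((q + 1, 0) : ℕ × ℕ).1).choose (2 * ((q + 1, 0) : ℕ × ℕ).1) : ℚ)
        * ((2 * b + ((q + 1, 0) : ℕ × ℕ).2).choose (2 * ((q + 1, 0) : ℕ × ℕ).2) : ℚ) = 0 := by
    simp
  rw [hz, zero_add]
  have h1 : ∑ v ∈ antidiagonal q, (((v.2 + 1 : ℕ)) : ℚ) * (2 * ((v.2 + 1 : ℕ) : ℚ) - 1)
      * ((2 * a + v.1).choose (2 * v.1) : ℚ) * ((2 * b + (v.2 + 1)).choose (2 * (v.2 + 1)) : ℚ)
      ≤ ∑ v ∈ antidiagonal q, 8 * (b : ℚ) ^ 2 *
        (((2 * a + v.1).choose (2 * v.1) * ((2 * b - 1) + v.2).choose (2 * v.2) : ℕ) : ℚ) := by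
    refine Finset.sum_le_sum (fun v _ => ?_)
    have h2 := ws_aux2 b v.2 hb
    have h3 : (0 : ℚ) ≤ ((2 * a + v.1).choose (2 * v.1) : ℚ) := by positivity
    have h4 := mul_le_mul_of_nonneg_left h2 h3
    push_cast
    linarith
  refine h1.trans ?_
  rw [← Finset.mul_sum, ← Nat.cast_sum]
  have h2 : ((∑ v ∈ antidiagonal q, (2 * a + v.1).choose (2 * v.1)
      * ((2 * b - 1) + v.2).choose (2 * v.2) : ℕ) : ℚ)
      ≤ ((2 * a + (2 * b - 1) + q).choose (2 * q) : ℕ) := by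
    exact_mod_cast hc (2 * a) (2 * b - 1) q
  have h3 := ws_aux1 (2 * a + (2 * b - 1) + q) q
  have e1 : 2 * a + (2 * b - 1) + q + 2 = 2 * (a + b) + (q + 1) := by omega
  have e2 : 2 * q + 2 = 2 * (q + 1) := by ring
  rw [e1, e2] at h3
  have hN : ((2 * a + (2 * b - 1) + q : ℕ) : ℚ) = 2 * a + 2 * b - 1 + q := by
    push_cast [Nat.cast_sub (by omega : 1 ≤ 2 * b)]
    ring
  rw [hN] at h3
  set X : ℚ := (((2 * a + (2 * b - 1) + q).choose (2 * q) : ℕ) : ℚ) with hX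
  have hX0 : 0 ≤ X := by rw [hX]; positivity
  have hb0 : (1 : ℚ) ≤ b := by exact_mod_cast hb
  have ha0 : (1 : ℚ) ≤ a := by exact_mod_cast ha
  have hq0 : (0 : ℚ) ≤ q := by positivity
  have h5 : 2 * ((a : ℚ) + b) ^ 2 * X
      ≤ ((q : ℚ) + 1) * (2 * q + 1) * ((2 * (a + b) + (q + 1)).choose (2 * (q + 1)) : ℚ) := by
    rw [h3]
    refine mul_le_mul_of_nonneg_right ?_ hX0
    nlinarith
  have hab : (0 : ℚ) < ((a : ℚ) + b) ^ 2 := by positivity
  calc 8 * (b : ℚ) ^ 2 * _ ≤ 8 * (b : ℚ) ^ 2 * X := mul_le_mul_of_nonneg_left h2 (by positivity)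
    _ = 4 * (b : ℚ) ^ 2 / ((a : ℚ) + b) ^ 2 * (2 * ((a : ℚ) + b) ^ 2 * X) := by
        field_simp
        ring
    _ ≤ 4 * (b : ℚ) ^ 2 / ((a : ℚ) + b) ^ 2 * (((q : ℚ) + 1) * (2 * q + 1)
        * ((2 * (a + b) + (q + 1)).choose (2 * (q + 1)) : ℚ)) :=
        mul_le_mul_of_nonneg_left h5 (by positivity)
    _ = _ := by push_cast; ring

theorem cM_9481 (d p : ℕ) (hp : p + 1 ≤ 2 * d) :
    ((2 * d + p).choose (2 * p) : ℚ) * 2 ^ p * ((2 * (d : ℚ) + (p + 1)) * (2 * d - p)) =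
      ((2 * d + (p + 1)).choose (2 * (p + 1)) : ℚ) * 2 ^ (p + 1) * ((p + 1) * (2 * (p + 1) - 1)) := by
  have h1 : (2 * d + p + 1) * (2 * d + p).choose (2 * p + 1) =
      (2 * d + p + 1).choose (2 * p + 1 + 1) * (2 * p + 1 + 1) :=
    Nat.add_one_mul_choose_eq (2 * d + p) (2 * p + 1)
  have h2 : (2 * d + p).choose (2 * p + 1) * (2 * p + 1) =
      (2 * d + p).choose (2 * p) * (2 * d + p - 2 * p) := Nat.choose_succ_right_eq _ _
  have h3 : 2 * d + p - 2 * p = 2 * d - p := by omega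
  rw [h3] at h2
  have h1' : (2 * (d : ℚ) + p + 1) * ((2 * d + p).choose (2 * p + 1) : ℚ) =
      ((2 * d + p + 1).choose (2 * p + 1 + 1) : ℚ) * (2 * p + 1 + 1) := by exact_mod_cast h1
  have h2' : ((2 * d + p).choose (2 * p + 1) : ℚ) * (2 * p + 1) =
      ((2 * d + p).choose (2 * p) : ℚ) * (2 * d - p) := by
    have h4 : ((2 * d - p : ℕ) : ℚ) = 2 * (d : ℚ) - p := by
      rw [Nat.cast_sub (by omega)]
      push_cast
      ring
    rw [← h4]
    exact_mod_cast h2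
  have h5 : 2 * (p + 1) = 2 * p + 1 + 1 := by ring
  have h6 : 2 * d + (p + 1) = 2 * d + p + 1 := by ring
  rw [h5, h6, pow_succ]
  calc ((2 * d + p).choose (2 * p) : ℚ) * 2 ^ p * ((2 * (d : ℚ) + (p + 1)) * (2 * d - p))
      = (((2 * d + p).choose (2 * p) : ℚ) * (2 * d - p)) * 2 ^ p * (2 * (d : ℚ) + (p + 1)) := by ring
    _ = (2 * (d : ℚ) + p + 1) * ((2 * d + p).choose (2 * p + 1) : ℚ) * (2 * p + 1) * 2 ^ p := by
        rw [← h2']; ring
    _ = _ := by rw [h1']; ring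

theorem upper_weight (f : ℕ → ℕ → ℚ) (hnn : ∀ d p, 0 ≤ f d p) (f_zero : ∀ p, f 0 p = 0)
    (f_out : ∀ d p : ℕ, 2 * d < p → f d p = 0) (f_one_zero : f 1 0 = 1 / 2)
    (f_top : ∀ d : ℕ, 2 * (d : ℚ) * (2 * d - 1) * (2 * d - 2) * f d 0 =
      ∑ u ∈ antidiagonal d, 4 * (u.1 : ℚ) ^ 2 * (u.2 - u.1) * f u.1 0 * f u.2 1)
    (f_rec : ∀ d p : ℕ, 1 ≤ p → p ≤ 2 * d → (p : ℚ) * (2 * p - 1) * (2 * d - 1) * f d p =
      (d : ℚ) * (2 * d - p + 1) * (2 * d + p - 2) / 2 * f d (p - 1)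
      + ∑ u ∈ antidiagonal d, ∑ v ∈ antidiagonal p,
          (u.1 : ℚ) ^ 3 * v.2 * (2 * v.2 - 1) * f u.1 v.1 * f u.2 v.2)
    (hs : ∀ d : ℕ, 1 ≤ d → ∑ u ∈ antidiagonal d,
      (if 1 ≤ u.1 ∧ 1 ≤ u.2 then 1 / ((u.1 : ℚ) * (u.2 : ℚ) ^ 2) else 0) ≤ 4 / (d : ℚ))
    (hw : ∀ a b p : ℕ, 1 ≤ a → 1 ≤ b → 1 ≤ p →
      ∑ v ∈ antidiagonal p, (v.2 : ℚ) * (2 * v.2 - 1) * ((2 * a + v.1).choose (2 * v.1) : ℚ)
        * ((2 * b + v.2).choose (2 * v.2) : ℚ)
      ≤ 4 * (b : ℚ) ^ 2 / ((a : ℚ) + b) ^ 2 * ((p : ℚ) * (2 * p - 1))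
        * ((2 * (a + b) + p).choose (2 * p) : ℚ)) :
    ∀ d p : ℕ, 1 ≤ d →
      f d p ≤ ((2 * d + p).choose (2 * p) : ℚ) * 2 ^ p * (16 ^ d / (32 * (d : ℚ) ^ 4)) := by
  classical
  intro d
  induction d using Nat.strong_induction_on with
  | _ d ih =>
  intro p hd
  have hdq : (1 : ℚ) ≤ d := by exact_mod_cast hd
  have hd0 : (0 : ℚ) < d := by linarith
  induction p with
  | zero =>
    rcases Nat.lt_or_ge d 2 with h | h
    · have : d = 1 := by omega
      subst this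
      rw [f_one_zero]
      norm_num
    · have hdq2 : (2 : ℚ) ≤ d := by exact_mod_cast h
      have h1 : ∑ u ∈ antidiagonal d, 4 * (u.1 : ℚ) ^ 2 * (u.2 - u.1) * f u.1 0 * f u.2 1 ≤
          ∑ u ∈ antidiagonal d, (24 / 1024 * 16 ^ d) *
            (if 1 ≤ u.2 ∧ 1 ≤ u.1 then 1 / ((u.2 : ℚ) * (u.1 : ℚ) ^ 2) else 0) := by
        apply Finset.sum_le_sum
        rintro ⟨a, b⟩ hab
        rw [Finset.HasAntidiagonal.mem_antidiagonal] at hab
        simp only at hab ⊢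
        rcases Nat.eq_zero_or_pos a with ha | ha
        · subst ha
          simp
        rcases Nat.eq_zero_or_pos b with hb | hb
        · subst hb
          simp [f_zero]
        have haq : (0 : ℚ) < a := by exact_mod_cast ha
        have hbq : (0 : ℚ) < b := by exact_mod_cast hb
        have hb1 : (1 : ℚ) ≤ b := by exact_mod_cast hb
        rw [if_pos ⟨hb, ha⟩]
        have i1 : f a 0 ≤ 16 ^ a / (32 * (a : ℚ) ^ 4) := by
          have := ih a (by omega) 0 ha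
          simpa using this
        have i2 : f b 1 ≤ 6 * (b : ℚ) ^ 2 * (16 ^ b / (32 * (b : ℚ) ^ 4)) := by
          refine (ih b (by omega) 1 hb).trans ?_
          apply mul_le_mul_of_nonneg_right _ (by positivity)
          have : ((2 * b + 1).choose (2 * 1) : ℚ) = (2 * b + 1) * (2 * b) / 2 := by
            rw [Nat.mul_one, Nat.cast_choose_two]
            push_cast
            ring
          rw [this]
          nlinarith
        have n1 := hnn a 0
        have n2 := hnn b 1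
        have e1 : (16 : ℚ) ^ d = 16 ^ a * 16 ^ b := by rw [← hab, pow_add]
        calc 4 * (a : ℚ) ^ 2 * (b - a) * f a 0 * f b 1
            = 4 * (a : ℚ) ^ 2 * (f a 0 * f b 1) * (b - a) := by ring
          _ ≤ 4 * (a : ℚ) ^ 2 * (f a 0 * f b 1) * b := by
              apply mul_le_mul_of_nonneg_left _ (by positivity)
              linarith
          _ ≤ 4 * (a : ℚ) ^ 2 * ((16 ^ a / (32 * (a : ℚ) ^ 4)) *
                (6 * (b : ℚ) ^ 2 * (16 ^ b / (32 * (b : ℚ) ^ 4)))) * b := by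
              apply mul_le_mul_of_nonneg_right _ hbq.le
              apply mul_le_mul_of_nonneg_left _ (by positivity)
              exact mul_le_mul i1 i2 n2 (by positivity)
          _ = 24 / 1024 * 16 ^ d * (1 / ((b : ℚ) * (a : ℚ) ^ 2)) := by
              rw [e1]
              field_simp
              ring
      have h2 : ∑ u ∈ antidiagonal d, (if 1 ≤ u.2 ∧ 1 ≤ u.1 then
          1 / ((u.2 : ℚ) * (u.1 : ℚ) ^ 2) else 0) ≤ 4 / (d : ℚ) := by
        have := hs d hd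
        rw [← Finset.Nat.sum_antidiagonal_swap] at this
        exact this
      rw [← f_top, ← Finset.mul_sum] at h1
      have h3 : 2 * (d : ℚ) * (2 * d - 1) * (2 * d - 2) * f d 0 ≤
          24 / 1024 * 16 ^ d * (4 / (d : ℚ)) :=
        h1.trans (mul_le_mul_of_nonneg_left h2 (by positivity))
      have h4 : 3 * (d : ℚ) ^ 3 * f d 0 ≤ 2 * (d : ℚ) * (2 * d - 1) * (2 * d - 2) * f d 0 := by
        apply mul_le_mul_of_nonneg_right _ (hnn d 0)
        have : 2 * (d : ℚ) * (2 * d - 1) * (2 * d - 2) - 3 * (d : ℚ) ^ 3 =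
          d * ((5 * d - 2) * (d - 2)) := by ring
        have h5 : 0 ≤ (d : ℚ) * ((5 * d - 2) * (d - 2)) := by
          apply mul_nonneg hd0.le
          apply mul_nonneg <;> linarith
        linarith
      have h6 := h4.trans h3
      have h7 : f d 0 ≤ (24 / 1024 * 16 ^ d * (4 / (d : ℚ))) / (3 * (d : ℚ) ^ 3) := by
        rw [le_div_iff₀ (by positivity)]
        linarith
      refine h7.trans (le_of_eq ?_)
      simp only [Nat.mul_zero, Nat.choose_zero_right, Nat.cast_one, pow_zero, one_mul]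
      field_simp
      ring
  | succ p ihp =>
    rcases Nat.lt_or_ge (2 * d) (p + 1) with h | h
    · rw [f_out d (p + 1) h]
      positivity
    · have hpq : (0 : ℚ) ≤ p := by positivity
      have hp2 : (p : ℚ) + 1 ≤ 2 * d := by exact_mod_cast h
      have hrec := f_rec d (p + 1) (by omega) h
      rw [Nat.add_sub_cancel] at hrec
      push_cast at hrec
      set M : ℚ := ((2 * d + (p + 1)).choose (2 * (p + 1)) : ℚ) * 2 ^ (p + 1) with hM
      set B : ℚ := 16 ^ d / (32 * (d : ℚ) ^ 4) with hB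
      have hMnn : 0 ≤ M := by positivity
      have hBnn : 0 ≤ B := by positivity
      set P : ℚ := ((p : ℚ) + 1) * (2 * ((p : ℚ) + 1) - 1) with hP
      have hPpos : 0 < P := by
        rw [hP]
        apply mul_pos <;> linarith
      -- linear part
      have hlin : (d : ℚ) * (2 * d - (p + 1) + 1) * (2 * d + (p + 1) - 2) / 2 * f d p ≤
          1 / 2 * P * (2 * d - 1) * M * B := by
        have e1 := cM_9481 d p h
        rw [← hM, ← hP] at e1
        have s1 : (0 : ℚ) ≤ 2 * d - p := by linarith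
        have s2 : (0 : ℚ) ≤ 2 * d + (p + 1) - 2 := by linarith
        have s3 : (0 : ℚ) < 2 * d + (p + 1) := by linarith
        set C : ℚ := ((2 * d + p).choose (2 * p) : ℚ) * 2 ^ p with hC
        have hCnn : 0 ≤ C := by positivity
        have t1 : (d : ℚ) * (2 * d - (p + 1) + 1) * (2 * d + (p + 1) - 2) / 2 * f d p ≤
            (d : ℚ) * (2 * d - (p + 1) + 1) * (2 * d + (p + 1) - 2) / 2 * (C * B) := by
          apply mul_le_mul_of_nonneg_left ihp
          have : (d : ℚ) * (2 * d - (p + 1) + 1) * (2 * d + (p + 1) - 2) / 2 =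
            d * (2 * d - p) * (2 * d + (p + 1) - 2) / 2 := by ring
          rw [this]
          positivity
        refine t1.trans ?_
        have t2 : (d : ℚ) * (2 * d + (p + 1) - 2) ≤ (2 * d - 1) * (2 * d + (p + 1)) := by
          nlinarith
        have t3 : (d : ℚ) * (2 * d - (p + 1) + 1) * (2 * d + (p + 1) - 2) / 2 * (C * B) =
            (d * (2 * d + (p + 1) - 2)) * (C * (2 * d - p) * B / 2) := by ring
        have t4 : 1 / 2 * P * (2 * d - 1) * M * B =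
            ((2 * d - 1) * (2 * d + (p + 1))) * (C * (2 * d - p) * B / 2) := by
          have : M * P = C * ((2 * (d : ℚ) + (p + 1)) * (2 * d - p)) := e1.symm
          calc 1 / 2 * P * (2 * d - 1) * M * B = (M * P) * ((2 * d - 1) * B / 2) := by ring
            _ = _ := by rw [this]; ring
        rw [t3, t4]
        apply mul_le_mul_of_nonneg_right t2
        positivity
      -- quadratic part
      have hquad : ∑ u ∈ antidiagonal d, ∑ v ∈ antidiagonal (p + 1),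
          (u.1 : ℚ) ^ 3 * v.2 * (2 * v.2 - 1) * f u.1 v.1 * f u.2 v.2 ≤
          1 / 64 * 16 ^ d * M * P / (d : ℚ) ^ 3 := by
        have q1 : ∑ u ∈ antidiagonal d, ∑ v ∈ antidiagonal (p + 1),
            (u.1 : ℚ) ^ 3 * v.2 * (2 * v.2 - 1) * f u.1 v.1 * f u.2 v.2 ≤
            ∑ u ∈ antidiagonal d, (4 / 1024 * 16 ^ d * M * P / (d : ℚ) ^ 2) *
              (if 1 ≤ u.1 ∧ 1 ≤ u.2 then 1 / ((u.1 : ℚ) * (u.2 : ℚ) ^ 2) else 0) := by
          apply Finset.sum_le_sum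
          rintro ⟨a, b⟩ hab
          rw [Finset.HasAntidiagonal.mem_antidiagonal] at hab
          simp only at hab ⊢
          rcases Nat.eq_zero_or_pos a with ha | ha
          · subst ha
            simp
          rcases Nat.eq_zero_or_pos b with hb | hb
          · subst hb
            simp [f_zero]
          have haq : (0 : ℚ) < a := by exact_mod_cast ha
          have hbq : (0 : ℚ) < b := by exact_mod_cast hb
          rw [if_pos ⟨ha, hb⟩]
          set X : ℚ := 16 ^ a / (32 * (a : ℚ) ^ 4) with hX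
          set Y : ℚ := 16 ^ b / (32 * (b : ℚ) ^ 4) with hY
          have hXnn : 0 ≤ X := by positivity
          have hYnn : 0 ≤ Y := by positivity
          have q2 : ∑ v ∈ antidiagonal (p + 1),
              (a : ℚ) ^ 3 * v.2 * (2 * v.2 - 1) * f a v.1 * f b v.2 ≤
              ∑ v ∈ antidiagonal (p + 1), ((a : ℚ) ^ 3 * 2 ^ (p + 1) * X * Y) *
                ((v.2 : ℚ) * (2 * v.2 - 1) * ((2 * a + v.1).choose (2 * v.1) : ℚ)
                * ((2 * b + v.2).choose (2 * v.2) : ℚ)) := by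
            apply Finset.sum_le_sum
            rintro ⟨x, y⟩ hxy
            rw [Finset.HasAntidiagonal.mem_antidiagonal] at hxy
            simp only at hxy ⊢
            have j1 := ih a (by omega) x ha
            have j2 := ih b (by omega) y hb
            rw [← hX] at j1
            rw [← hY] at j2
            have n1 := hnn a x
            have n2 := hnn b y
            have hy : (0 : ℚ) ≤ (y : ℚ) * (2 * y - 1) := by
              rcases Nat.eq_zero_or_pos y with h0 | h0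
              · subst h0; simp
              · have : (1 : ℚ) ≤ y := by exact_mod_cast h0
                apply mul_nonneg <;> linarith
            have e2 : (2 : ℚ) ^ (p + 1) = 2 ^ x * 2 ^ y := by rw [← hxy, pow_add]
            calc (a : ℚ) ^ 3 * y * (2 * y - 1) * f a x * f b y
                = (a : ℚ) ^ 3 * ((y : ℚ) * (2 * y - 1)) * (f a x * f b y) := by ring
              _ ≤ (a : ℚ) ^ 3 * ((y : ℚ) * (2 * y - 1)) *
                  ((((2 * a + x).choose (2 * x) : ℚ) * 2 ^ x * X) *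
                  (((2 * b + y).choose (2 * y) : ℚ) * 2 ^ y * Y)) := by
                  apply mul_le_mul_of_nonneg_left _ (by positivity)
                  exact mul_le_mul j1 j2 n2 (by positivity)
              _ = _ := by rw [e2]; ring
          refine q2.trans ?_
          rw [← Finset.mul_sum]
          have q3 := hw a b (p + 1) ha hb (by omega)
          refine (mul_le_mul_of_nonneg_left q3 (by positivity)).trans (le_of_eq ?_)
          have e3 : (a : ℚ) + b = d := by exact_mod_cast hab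
          have e4 : (16 : ℚ) ^ d = 16 ^ a * 16 ^ b := by rw [← hab, pow_add]
          rw [hab, e3]
          push_cast
          rw [← hP, hM, hX, hY, e4]
          field_simp
          ring
        refine q1.trans ?_
        rw [← Finset.mul_sum]
        refine (mul_le_mul_of_nonneg_left (hs d hd) (by positivity)).trans (le_of_eq ?_)
        field_simp
        ring
      have hq2 : 1 / 64 * 16 ^ d * M * P / (d : ℚ) ^ 3 ≤ 1 / 2 * P * (2 * d - 1) * M * B := by
        have e5 : 1 / 64 * 16 ^ d * M * P / (d : ℚ) ^ 3 = 1 / 2 * P * d * M * B := by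
          rw [hB]
          field_simp
          ring
        rw [e5]
        apply mul_le_mul_of_nonneg_right _ hBnn
        apply mul_le_mul_of_nonneg_right _ hMnn
        apply mul_le_mul_of_nonneg_left _ (by positivity)
        linarith
      have hfin : P * (2 * d - 1) * f d (p + 1) ≤ P * (2 * d - 1) * (M * B) := by
        calc P * (2 * d - 1) * f d (p + 1) =
            (d : ℚ) * (2 * d - (p + 1) + 1) * (2 * d + (p + 1) - 2) / 2 * f d p
              + ∑ u ∈ antidiagonal d, ∑ v ∈ antidiagonal (p + 1),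
                (u.1 : ℚ) ^ 3 * v.2 * (2 * v.2 - 1) * f u.1 v.1 * f u.2 v.2 := by
              rw [hP]; exact hrec
          _ ≤ 1 / 2 * P * (2 * d - 1) * M * B + 1 / 2 * P * (2 * d - 1) * M * B :=
              add_le_add hlin (hquad.trans hq2)
          _ = P * (2 * d - 1) * (M * B) := by ring
      refine le_of_mul_le_mul_left hfin ?_
      apply mul_pos hPpos
      linarith

theorem arith_aux (a b m n x F S : ℚ) (a1 : 1 ≤ a) (b1 : 1 ≤ b) (m1 : 1 ≤ m) (n1 : 1 ≤ n)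
    (nm : n ≤ m) (hx0 : 0 ≤ x) (hF0 : 0 ≤ F)
    (hS : (a * m) ^ 3 * (b * n) * (2 * (b * n) - 1) * F ≤ S)
    (hrec : (b * (m + n)) * (2 * (b * (m + n)) - 1) * (2 * (a * (m + n)) - 1) * x = S) :
    F ≤ 32 * x := by
  have hbn : 1 ≤ b * n := by nlinarith
  have h2 : b ^ 2 * n ^ 2 ≤ (b * n) * (2 * (b * n) - 1) := by nlinarith
  have hlow : (a ^ 3 * m ^ 3 * (b ^ 2 * n ^ 2)) * F ≤ S := by
    refine le_trans ?_ hS
    have h3 : (a ^ 3 * m ^ 3) * (b ^ 2 * n ^ 2) ≤ (a ^ 3 * m ^ 3) * ((b * n) * (2 * (b * n) - 1)) :=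
      mul_le_mul_of_nonneg_left h2 (by positivity)
    have h4 := mul_le_mul_of_nonneg_right h3 hF0
    have h5 : (a * m) ^ 3 * (b * n) * (2 * (b * n) - 1) * F =
      (a ^ 3 * m ^ 3) * ((b * n) * (2 * (b * n) - 1)) * F := by ring
    rw [h5]
    exact h4
  obtain ⟨s, hs'⟩ : ∃ s, s = m + n := ⟨_, rfl⟩
  rw [← hs'] at hrec
  have hs0 : 0 ≤ s := by linarith
  have hs : s ≤ 2 * m := by linarith
  have hs2 : 2 ≤ s := by linarith
  have hup : (b * s) * (2 * (b * s) - 1) * (2 * (a * s) - 1) ≤ 32 * (a * b ^ 2 * m ^ 3) := by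
    have p1 : 1 ≤ b * s := by nlinarith
    have p2 : 1 ≤ a * s := by nlinarith
    have p3 : 0 ≤ 2 * (a * s) - 1 := by linarith
    have p4 : (b * s) * (2 * (b * s) - 1) ≤ (b * s) * (2 * (b * s)) :=
      mul_le_mul_of_nonneg_left (by linarith) (by linarith)
    have p5 : 0 ≤ (b * s) * (2 * (b * s)) := by positivity
    have p6 := mul_le_mul_of_nonneg_right p4 p3
    have p7 : (b * s) * (2 * (b * s)) * (2 * (a * s) - 1) ≤ (b * s) * (2 * (b * s)) * (2 * (a * s)) :=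
      mul_le_mul_of_nonneg_left (by linarith) p5
    have h2 : s ^ 3 ≤ (2 * m) ^ 3 := pow_le_pow_left₀ hs0 hs 3
    have h3 : (4 * a * b ^ 2) * s ^ 3 ≤ (4 * a * b ^ 2) * (2 * m) ^ 3 :=
      mul_le_mul_of_nonneg_left h2 (by positivity)
    have h4 : (b * s) * (2 * (b * s)) * (2 * (a * s)) = (4 * a * b ^ 2) * s ^ 3 := by ring
    have h5 : (4 * a * b ^ 2) * (2 * m) ^ 3 = 32 * (a * b ^ 2 * m ^ 3) := by ring
    linarith
  have hup' := mul_le_mul_of_nonneg_right hup hx0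
  rw [hrec] at hup'
  have hfin := hlow.trans hup'
  have hpos : 0 < a * b ^ 2 * m ^ 3 := by positivity
  have h3 : (a * b ^ 2 * m ^ 3) * ((a ^ 2 * n ^ 2) * F) ≤ (a * b ^ 2 * m ^ 3) * (32 * x) := by
    have e1 : (a * b ^ 2 * m ^ 3) * ((a ^ 2 * n ^ 2) * F) = a ^ 3 * m ^ 3 * (b ^ 2 * n ^ 2) * F := by
      ring
    have e2 : (a * b ^ 2 * m ^ 3) * (32 * x) = 32 * (a * b ^ 2 * m ^ 3) * x := by ring
    rw [e1, e2]
    exact hfin
  have h4 := le_of_mul_le_mul_left h3 hpos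
  have h6 : 1 ≤ a ^ 2 * n ^ 2 := by
    have i1 : 1 ≤ a ^ 2 := one_le_pow₀ a1
    have i2 : 1 ≤ n ^ 2 := one_le_pow₀ n1
    nlinarith
  have h5 : 1 * F ≤ (a ^ 2 * n ^ 2) * F := mul_le_mul_of_nonneg_right h6 hF0
  linarith

theorem single_term (f : ℕ → ℕ → ℚ)
    (hterm : ∀ (u v : ℕ × ℕ), (0 : ℚ) ≤
      (u.1 : ℚ) ^ 3 * v.2 * (2 * v.2 - 1) * f u.1 v.1 * f u.2 v.2)
    (d p a a' b b' : ℕ) (ha : a + a' = d) (hb : b + b' = p) :
    (a : ℚ) ^ 3 * (b' : ℚ) * (2 * (b' : ℚ) - 1) * f a b * f a' b' ≤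
      ∑ u ∈ antidiagonal d, ∑ v ∈ antidiagonal p,
          (u.1 : ℚ) ^ 3 * v.2 * (2 * v.2 - 1) * f u.1 v.1 * f u.2 v.2 := by
  have h1 := Finset.single_le_sum (f := fun u : ℕ × ℕ => ∑ v ∈ antidiagonal p,
          (u.1 : ℚ) ^ 3 * v.2 * (2 * v.2 - 1) * f u.1 v.1 * f u.2 v.2)
      (fun u _ => Finset.sum_nonneg fun v _ => hterm u v)
      (show (a, a') ∈ antidiagonal d by
        rw [HasAntidiagonal.mem_antidiagonal]; exact ha)
  have h2 := Finset.single_le_sum (f := fun v : ℕ × ℕ =>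
          (a : ℚ) ^ 3 * v.2 * (2 * v.2 - 1) * f a v.1 * f a' v.2)
      (fun v _ => hterm (a, a') v)
      (show (b, b') ∈ antidiagonal p by
        rw [HasAntidiagonal.mem_antidiagonal]; exact hb)
  exact h2.trans h1

theorem superadd_aux (f : ℕ → ℕ → ℚ) (hnn : ∀ d p, 0 ≤ f d p)
    (f_rec : ∀ d p : ℕ, 1 ≤ p → p ≤ 2 * d → (p : ℚ) * (2 * p - 1) * (2 * d - 1) * f d p =
      (d : ℚ) * (2 * d - p + 1) * (2 * d + p - 2) / 2 * f d (p - 1)
      + ∑ u ∈ antidiagonal d, ∑ v ∈ antidiagonal p,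
          (u.1 : ℚ) ^ 3 * v.2 * (2 * v.2 - 1) * f u.1 v.1 * f u.2 v.2)
    (α β : ℕ) (hα : 0 < α) (hβ : 0 < β) (hβα : β ≤ 2 * α) (m n : ℕ) (hm : 1 ≤ m) (hn : 1 ≤ n)
    (hnm : n ≤ m) :
    1 / 32 * f (α * m) (β * m) * f (α * n) (β * n) ≤ f (α * (m + n)) (β * (m + n)) := by
  have hd1 : 1 ≤ α * (m + n) := Nat.mul_pos hα (by omega)
  have hp1 : 1 ≤ β * (m + n) := Nat.mul_pos hβ (by omega)
  have hp2 : β * (m + n) ≤ 2 * (α * (m + n)) := by
    rw [← mul_assoc]
    exact Nat.mul_le_mul_right _ hβα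
  have hrec := f_rec (α * (m + n)) (β * (m + n)) hp1 hp2
  have hvv : ∀ v : ℕ, (0 : ℚ) ≤ (v : ℚ) * (2 * v - 1) := by
    intro v
    rcases Nat.eq_zero_or_pos v with h | h
    · simp [h]
    · have : (1 : ℚ) ≤ v := by exact_mod_cast h
      nlinarith
  have hterm : ∀ (u v : ℕ × ℕ), (0 : ℚ) ≤ (u.1 : ℚ) ^ 3 * v.2 * (2 * v.2 - 1) * f u.1 v.1 * f u.2 v.2 := by
    intro u v
    have h1 : (u.1 : ℚ) ^ 3 * v.2 * (2 * v.2 - 1) = (u.1 : ℚ) ^ 3 * (v.2 * (2 * v.2 - 1)) := by ring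
    rw [h1]
    exact mul_nonneg (mul_nonneg (mul_nonneg (by positivity) (hvv _)) (hnn _ _)) (hnn _ _)
  have hsum : (((α * m : ℕ) : ℚ)) ^ 3 * ((β * n : ℕ) : ℚ) * (2 * ((β * n : ℕ) : ℚ) - 1) *
      f (α * m) (β * m) * f (α * n) (β * n) ≤
      ∑ u ∈ antidiagonal (α * (m + n)), ∑ v ∈ antidiagonal (β * (m + n)),
          (u.1 : ℚ) ^ 3 * v.2 * (2 * v.2 - 1) * f u.1 v.1 * f u.2 v.2 := by
    exact single_term f hterm (α * (m + n)) (β * (m + n)) (α * m) (α * n) (β * m) (β * n)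
      (by ring) (by ring)
  have hfirst : (0 : ℚ) ≤ ((α * (m + n) : ℕ) : ℚ) * (2 * ((α * (m + n) : ℕ) : ℚ) -
      ((β * (m + n) : ℕ) : ℚ) + 1) * (2 * ((α * (m + n) : ℕ) : ℚ) + ((β * (m + n) : ℕ) : ℚ) - 2) / 2 *
      f (α * (m + n)) (β * (m + n) - 1) := by
    have h1 : ((β * (m + n) : ℕ) : ℚ) ≤ 2 * ((α * (m + n) : ℕ) : ℚ) := by exact_mod_cast hp2
    have h2 : (1 : ℚ) ≤ ((α * (m + n) : ℕ) : ℚ) := by exact_mod_cast hd1
    have h3 : (0 : ℚ) ≤ ((β * (m + n) : ℕ) : ℚ) := Nat.cast_nonneg _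
    refine mul_nonneg (div_nonneg (mul_nonneg (mul_nonneg (by linarith) (by linarith))
      (by linarith)) (by norm_num)) (hnn _ _)
  have hS := hsum.trans (le_add_of_nonneg_left hfirst)
  have a1 : (1 : ℚ) ≤ α := by exact_mod_cast hα
  have b1 : (1 : ℚ) ≤ β := by exact_mod_cast hβ
  have m1 : (1 : ℚ) ≤ m := by exact_mod_cast hm
  have n1 : (1 : ℚ) ≤ n := by exact_mod_cast hn
  have nm : (n : ℚ) ≤ m := by exact_mod_cast hnm
  have key := arith_aux (α : ℚ) β m n (f (α * (m + n)) (β * (m + n)))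
    (f (α * m) (β * m) * f (α * n) (β * n)) _ a1 b1 m1 n1 nm (hnn _ _)
    (mul_nonneg (hnn _ _) (hnn _ _)) (by
      refine le_trans (le_of_eq ?_) hS
      push_cast
      ring) (by
      rw [← hrec]
      push_cast
      ring)
  linarith

theorem superadd (f : ℕ → ℕ → ℚ) (hnn : ∀ d p, 0 ≤ f d p)
    (f_rec : ∀ d p : ℕ, 1 ≤ p → p ≤ 2 * d → (p : ℚ) * (2 * p - 1) * (2 * d - 1) * f d p =
      (d : ℚ) * (2 * d - p + 1) * (2 * d + p - 2) / 2 * f d (p - 1)
      + ∑ u ∈ antidiagonal d, ∑ v ∈ antidiagonal p,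
          (u.1 : ℚ) ^ 3 * v.2 * (2 * v.2 - 1) * f u.1 v.1 * f u.2 v.2)
    (α β : ℕ) (hα : 0 < α) (hβ : 0 < β) (hβα : β ≤ 2 * α) (m n : ℕ) (hm : 1 ≤ m) (hn : 1 ≤ n) :
    1 / 32 * f (α * m) (β * m) * f (α * n) (β * n) ≤ f (α * (m + n)) (β * (m + n)) := by
  rcases le_total n m with h | h
  · exact superadd_aux f hnn f_rec α β hα hβ hβα m n hm hn h
  · have := superadd_aux f hnn f_rec α β hα hβ hβα n m hn hm h
    rw [add_comm n m] at this
    calc _ = 1 / 32 * f (α * n) (β * n) * f (α * m) (β * m) := by ring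
      _ ≤ _ := this

theorem growth_limit (x : ℕ → ℝ) (c C : ℝ) (hc : 0 < c) (hpos : ∀ n : ℕ, 1 ≤ n → 0 < x n)
    (hsup : ∀ m n : ℕ, 1 ≤ m → 1 ≤ n → c * x m * x n ≤ x (m + n))
    (hup : ∀ n : ℕ, 1 ≤ n → x n ≤ C ^ n) :
    ∃ L : ℝ, 0 < L ∧ Tendsto (fun n : ℕ => (x n) ^ (1 / (n : ℝ))) atTop (𝓝 L) := by
  have hC : 0 < C := by
    have h1 := hup 1 le_rfl
    rw [pow_one] at h1
    exact (hpos 1 le_rfl).trans_le h1
  obtain ⟨u, hu0, hu⟩ : ∃ u : ℕ → ℝ, u 0 = 0 ∧ ∀ n, 1 ≤ n → u n = -Real.log (c * x n) :=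
    ⟨fun n => if n = 0 then 0 else -Real.log (c * x n), by simp, fun n hn => by
      simp only
      rw [if_neg (by omega)]⟩
  have hsub : Subadditive u := by
    intro m n
    rcases Nat.eq_zero_or_pos m with hm | hm
    · subst hm
      rw [hu0, zero_add, zero_add]
    rcases Nat.eq_zero_or_pos n with hn | hn
    · subst hn
      rw [hu0, add_zero, add_zero]
    rw [hu m hm, hu n hn, hu (m + n) (by omega)]
    have h1 := hpos m hm
    have h2 := hpos n hn
    have h3 := hpos (m + n) (by omega)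
    have h4 : Real.log (c * x m * (c * x n)) ≤ Real.log (c * x (m + n)) := by
      apply Real.log_le_log (by positivity)
      calc c * x m * (c * x n) = c * (c * x m * x n) := by ring
        _ ≤ c * x (m + n) := mul_le_mul_of_nonneg_left (hsup m n hm hn) hc.le
    rw [Real.log_mul (by positivity) (by positivity)] at h4
    linarith
  have hbdd : BddBelow (Set.range fun n : ℕ => u n / n) := by
    refine ⟨-|Real.log c| - |Real.log C|, ?_⟩
    rintro _ ⟨n, rfl⟩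
    simp only
    rcases Nat.eq_zero_or_pos n with hn | hn
    · subst hn
      rw [hu0, zero_div]
      have h1 := abs_nonneg (Real.log c)
      have h2 := abs_nonneg (Real.log C)
      linarith
    · have hn' : (1 : ℝ) ≤ n := by exact_mod_cast hn
      rw [hu n hn, le_div_iff₀ (by linarith), Real.log_mul hc.ne' (hpos n hn).ne']
      have h1 : Real.log (x n) ≤ n * Real.log C := by
        rw [← Real.log_pow]
        exact Real.log_le_log (hpos n hn) (hup n hn)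
      have h2 := le_abs_self (Real.log c)
      have h3 := le_abs_self (Real.log C)
      have h4 : |Real.log c| ≤ |Real.log c| * n :=
        le_mul_of_one_le_right (abs_nonneg _) hn'
      have h5 : (n : ℝ) * Real.log C ≤ n * |Real.log C| :=
        mul_le_mul_of_nonneg_left h3 (by linarith)
      have h6 : (-|Real.log c| - |Real.log C|) * n = -(|Real.log c| * n) - n * |Real.log C| := by
        ring
      rw [h6]
      linarith
  have hlim := hsub.tendsto_lim hbdd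
  refine ⟨Real.exp (-hsub.lim), Real.exp_pos _, ?_⟩
  have h1 : Tendsto (fun n : ℕ => Real.exp (-(u n / n) - Real.log c / n)) atTop
      (𝓝 (Real.exp (-hsub.lim))) := by
    apply (Real.continuous_exp.tendsto _).comp
    have h2 : Tendsto (fun n : ℕ => Real.log c / (n : ℝ)) atTop (𝓝 0) :=
      tendsto_const_div_atTop_nhds_zero_nat _
    have h3 := hlim.neg.sub h2
    rw [sub_zero] at h3
    exact h3
  refine h1.congr' ?_
  filter_upwards [eventually_ge_atTop 1] with n hn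
  have hn' : (n : ℝ) ≠ 0 := by
    have : (1 : ℝ) ≤ n := by exact_mod_cast hn
    linarith
  rw [Real.rpow_def_of_pos (hpos n hn), hu n hn, Real.log_mul hc.ne' (hpos n hn).ne']
  congr 1
  field_simp
  ring

/-- normalised numbers -/
def nrm (N : ℕ → ℕ → ℕ → ℚ) (d p : ℕ) : ℚ :=
  if p ≤ 2 * d then N d (2 * p) (2 * d - p) / ((Nat.factorial (2 * p) : ℚ) * (Nat.factorial (2 * d - p) : ℚ)) else 0

private theorem half_eval (N : ℕ → ℕ → ℕ → ℚ) (u j k v w P : ℕ) (h1 : v + j = 2 * P)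
    (h2 : w + k + P = 2 * u) :
    N u (v + j) (w + k) / ((Nat.factorial v : ℚ) * (Nat.factorial w : ℚ)) =
      ((2 * P).descFactorial j : ℚ) * ((2 * u - P).descFactorial k : ℚ) * nrm N u P := by
  have e1 : 2 * u - P = w + k := by omega
  have hf1 : (Nat.factorial v : ℚ) * ((2 * P).descFactorial j : ℚ) = (Nat.factorial (2 * P) : ℚ) := by
    have := Nat.factorial_mul_descFactorial (n := 2 * P) (k := j) (by omega)
    rw [show 2 * P - j = v by omega] at this
    exact_mod_cast this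
  have hf2 : (Nat.factorial w : ℚ) * ((2 * u - P).descFactorial k : ℚ) =
      (Nat.factorial (2 * u - P) : ℚ) := by
    have := Nat.factorial_mul_descFactorial (n := 2 * u - P) (k := k) (by omega)
    rw [show 2 * u - P - k = w by omega] at this
    exact_mod_cast this
  unfold nrm
  rw [if_pos (by omega), h1, ← e1]
  have n1 : (Nat.factorial v : ℚ) ≠ 0 := by exact_mod_cast (Nat.factorial_pos v).ne'
  have n2 : (Nat.factorial w : ℚ) ≠ 0 := by exact_mod_cast (Nat.factorial_pos w).ne'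
  have n3 : ((2 * P).descFactorial j : ℚ) ≠ 0 := by
    intro h
    rw [h, mul_zero] at hf1
    exact (by exact_mod_cast (Nat.factorial_pos (2 * P)).ne' : (Nat.factorial (2 * P) : ℚ) ≠ 0) hf1.symm
  have n4 : ((2 * u - P).descFactorial k : ℚ) ≠ 0 := by
    intro h
    rw [h, mul_zero] at hf2
    exact (by exact_mod_cast (Nat.factorial_pos (2 * u - P)).ne' :
      (Nat.factorial (2 * u - P) : ℚ) ≠ 0) hf2.symm
  rw [← hf1, ← hf2]
  field_simp

private theorem choose_div (a x y : ℕ) (h : x + y = a) :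
    (a.choose x : ℚ) = (Nat.factorial a : ℚ) / ((Nat.factorial x : ℚ) * (Nat.factorial y : ℚ)) := by
  rw [Nat.cast_choose ℚ (show x ≤ a by omega), show a - x = y by omega]

theorem conv_eval (N : ℕ → ℕ → ℕ → ℚ) (hdim : ∀ d a b, a + 2 * b ≠ 4 * d → N d a b = 0)
    (i₁ j₁ k₁ i₂ j₂ k₂ d a b p : ℕ) (ha : a + (j₁ + j₂) = 2 * p) (hb : b + (k₁ + k₂) + p = 2 * d) :
    conv (der i₁ j₁ k₁ N) (der i₂ j₂ k₂ N) d a b / ((Nat.factorial a : ℚ) * (Nat.factorial b : ℚ)) =
      ∑ u ∈ antidiagonal d, ∑ v ∈ antidiagonal p,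
        (u.1 : ℚ) ^ i₁ * (u.2 : ℚ) ^ i₂ *
        ((2 * v.1).descFactorial j₁ : ℚ) * ((2 * v.2).descFactorial j₂ : ℚ) *
        ((2 * u.1 - v.1).descFactorial k₁ : ℚ) * ((2 * u.2 - v.2).descFactorial k₂ : ℚ) *
        nrm N u.1 v.1 * nrm N u.2 v.2 := by
  have fa : (Nat.factorial a : ℚ) ≠ 0 := by exact_mod_cast (Nat.factorial_pos a).ne'
  have fb : (Nat.factorial b : ℚ) ≠ 0 := by exact_mod_cast (Nat.factorial_pos b).ne'
  unfold conv der
  rw [Finset.sum_div]
  refine Finset.sum_congr rfl fun u _ => ?_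
  rw [← Finset.sum_product', Finset.sum_div]
  -- the value of a term
  have hval : ∀ (v w : ℕ × ℕ), v.1 + v.2 = a → w.1 + w.2 = b →
      (a.choose v.1 : ℚ) * (b.choose w.1 : ℚ) * ((u.1 : ℚ) ^ i₁ * N u.1 (v.1 + j₁) (w.1 + k₁)) *
        ((u.2 : ℚ) ^ i₂ * N u.2 (v.2 + j₂) (w.2 + k₂)) /
          ((Nat.factorial a : ℚ) * (Nat.factorial b : ℚ)) =
      (u.1 : ℚ) ^ i₁ * (u.2 : ℚ) ^ i₂ *
        (N u.1 (v.1 + j₁) (w.1 + k₁) / ((Nat.factorial v.1 : ℚ) * (Nat.factorial w.1 : ℚ))) *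
        (N u.2 (v.2 + j₂) (w.2 + k₂) / ((Nat.factorial v.2 : ℚ) * (Nat.factorial w.2 : ℚ))) := by
    intro v w hv hw
    rw [choose_div a v.1 v.2 hv, choose_div b w.1 w.2 hw]
    have n1 : (Nat.factorial v.1 : ℚ) ≠ 0 := by exact_mod_cast (Nat.factorial_pos v.1).ne'
    have n2 : (Nat.factorial w.1 : ℚ) ≠ 0 := by exact_mod_cast (Nat.factorial_pos w.1).ne'
    have n3 : (Nat.factorial v.2 : ℚ) ≠ 0 := by exact_mod_cast (Nat.factorial_pos v.2).ne'
    have n4 : (Nat.factorial w.2 : ℚ) ≠ 0 := by exact_mod_cast (Nat.factorial_pos w.2).ne'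
    field_simp
  have hval2 : ∀ (v w : ℕ × ℕ) (P : ℕ × ℕ), v.1 + v.2 = a → w.1 + w.2 = b →
      v.1 + j₁ = 2 * P.1 → v.2 + j₂ = 2 * P.2 → w.1 + k₁ + P.1 = 2 * u.1 →
      w.2 + k₂ + P.2 = 2 * u.2 →
      (a.choose v.1 : ℚ) * (b.choose w.1 : ℚ) * ((u.1 : ℚ) ^ i₁ * N u.1 (v.1 + j₁) (w.1 + k₁)) *
        ((u.2 : ℚ) ^ i₂ * N u.2 (v.2 + j₂) (w.2 + k₂)) /
          ((Nat.factorial a : ℚ) * (Nat.factorial b : ℚ)) =
      (u.1 : ℚ) ^ i₁ * (u.2 : ℚ) ^ i₂ *
        ((2 * P.1).descFactorial j₁ : ℚ) * ((2 * P.2).descFactorial j₂ : ℚ) *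
        ((2 * u.1 - P.1).descFactorial k₁ : ℚ) * ((2 * u.2 - P.2).descFactorial k₂ : ℚ) *
        nrm N u.1 P.1 * nrm N u.2 P.2 := by
    intro v w P hv hw h1 h2 h3 h4
    rw [hval v w hv hw, half_eval N u.1 j₁ k₁ v.1 w.1 P.1 h1 h3,
      half_eval N u.2 j₂ k₂ v.2 w.2 P.2 h2 h4]
    ring
  -- nonzero terms
  have hnz : ∀ x : (ℕ × ℕ) × (ℕ × ℕ), x ∈ antidiagonal a ×ˢ antidiagonal b →
      (a.choose x.1.1 : ℚ) * (b.choose x.2.1 : ℚ) *
        ((u.1 : ℚ) ^ i₁ * N u.1 (x.1.1 + j₁) (x.2.1 + k₁)) *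
        ((u.2 : ℚ) ^ i₂ * N u.2 (x.1.2 + j₂) (x.2.2 + k₂)) /
          ((Nat.factorial a : ℚ) * (Nat.factorial b : ℚ)) ≠ 0 →
      x.1.1 + x.1.2 = a ∧ x.2.1 + x.2.2 = b ∧
        x.1.1 + j₁ + 2 * (x.2.1 + k₁) = 4 * u.1 ∧ x.1.2 + j₂ + 2 * (x.2.2 + k₂) = 4 * u.2 := by
    intro x hx hne
    rw [Finset.mem_product, HasAntidiagonal.mem_antidiagonal, HasAntidiagonal.mem_antidiagonal] at hx
    refine ⟨hx.1, hx.2, ?_, ?_⟩
    · by_contra h
      apply hne
      rw [hdim _ _ _ h]; simp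
    · by_contra h
      apply hne
      rw [hdim _ _ _ h]; simp
  refine Finset.sum_bij_ne_zero (fun x _ _ => ((x.1.1 + j₁) / 2, (x.1.2 + j₂) / 2)) ?_ ?_ ?_ ?_
  · intro x hx hne
    obtain ⟨e1, e2, e3, e4⟩ := hnz x hx hne
    rw [HasAntidiagonal.mem_antidiagonal]
    show (x.1.1 + j₁) / 2 + (x.1.2 + j₂) / 2 = p
    omega
  · intro x hx hne y hy hne' hxy
    obtain ⟨e1, e2, e3, e4⟩ := hnz x hx hne
    obtain ⟨f1, f2, f3, f4⟩ := hnz y hy hne'
    rw [Prod.mk.injEq] at hxy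
    obtain ⟨g1, g2⟩ := hxy
    apply Prod.ext <;> apply Prod.ext <;> omega
  · intro P hP hne
    rw [HasAntidiagonal.mem_antidiagonal] at hP
    have c1 : P.1 ≤ 2 * u.1 := by
      by_contra h
      apply hne
      have : nrm N u.1 P.1 = 0 := if_neg h
      rw [this]; ring
    have c2 : P.2 ≤ 2 * u.2 := by
      by_contra h
      apply hne
      have : nrm N u.2 P.2 = 0 := if_neg h
      rw [this]; ring
    have c3 : j₁ ≤ 2 * P.1 := by
      by_contra h
      apply hne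
      rw [Nat.descFactorial_eq_zero_iff_lt.2 (not_le.1 h)]; simp
    have c4 : j₂ ≤ 2 * P.2 := by
      by_contra h
      apply hne
      rw [Nat.descFactorial_eq_zero_iff_lt.2 (not_le.1 h)]; simp
    have c5 : k₁ ≤ 2 * u.1 - P.1 := by
      by_contra h
      apply hne
      rw [Nat.descFactorial_eq_zero_iff_lt.2 (not_le.1 h)]; simp
    have c6 : k₂ ≤ 2 * u.2 - P.2 := by
      by_contra h
      apply hne
      rw [Nat.descFactorial_eq_zero_iff_lt.2 (not_le.1 h)]; simp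
    have hud : u.1 + u.2 = d := by
      rename_i hu
      exact HasAntidiagonal.mem_antidiagonal.1 hu
    refine ⟨((2 * P.1 - j₁, 2 * P.2 - j₂), (2 * u.1 - P.1 - k₁, 2 * u.2 - P.2 - k₂)), ?_, ?_, ?_⟩
    · rw [Finset.mem_product, HasAntidiagonal.mem_antidiagonal, HasAntidiagonal.mem_antidiagonal]
      constructor
      · show 2 * P.1 - j₁ + (2 * P.2 - j₂) = a
        omega
      · show 2 * u.1 - P.1 - k₁ + (2 * u.2 - P.2 - k₂) = b
        omega
    · rw [hval2 _ _ P]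
      · exact hne
      · show 2 * P.1 - j₁ + (2 * P.2 - j₂) = a
        omega
      · show 2 * u.1 - P.1 - k₁ + (2 * u.2 - P.2 - k₂) = b
        omega
      · show 2 * P.1 - j₁ + j₁ = 2 * P.1
        omega
      · show 2 * P.2 - j₂ + j₂ = 2 * P.2
        omega
      · show 2 * u.1 - P.1 - k₁ + k₁ + P.1 = 2 * u.1
        omega
      · show 2 * u.2 - P.2 - k₂ + k₂ + P.2 = 2 * u.2
        omega
    · apply Prod.ext
      · show (2 * P.1 - j₁ + j₁) / 2 = P.1
        omega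
      · show (2 * P.2 - j₂ + j₂) / 2 = P.2
        omega
  · intro x hx hne
    obtain ⟨e1, e2, e3, e4⟩ := hnz x hx hne
    exact hval2 x.1 x.2 ((x.1.1 + j₁) / 2, (x.1.2 + j₂) / 2) e1 e2
      (by show x.1.1 + j₁ = 2 * ((x.1.1 + j₁) / 2); omega)
      (by show x.1.2 + j₂ = 2 * ((x.1.2 + j₂) / 2); omega)
      (by show x.2.1 + k₁ + (x.1.1 + j₁) / 2 = 2 * u.1; omega)
      (by show x.2.2 + k₂ + (x.1.2 + j₂) / 2 = 2 * u.2; omega)

lemma nrm_out (N : ℕ → ℕ → ℕ → ℚ) (d p : ℕ) (h : 2 * d < p) : nrm N d p = 0 := by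
  rw [nrm, if_neg (by omega)]

lemma eval_nrm (N : ℕ → ℕ → ℕ → ℚ) (d p a b : ℕ) (ha : a = 2 * p) (hb : b + p = 2 * d) :
    N d a b = (a.factorial : ℚ) * b.factorial * nrm N d p := by
  have hb' : 2 * d - p = b := by omega
  rw [nrm, if_pos (by omega), ← ha, hb']
  have h1 : (a.factorial : ℚ) ≠ 0 := by exact_mod_cast a.factorial_ne_zero
  have h2 : (b.factorial : ℚ) ≠ 0 := by exact_mod_cast b.factorial_ne_zero
  field_simp

lemma eqA (N : ℕ → ℕ → ℕ → ℚ) (h : IsCurveCount N) (d p : ℕ) (hp : 1 ≤ p) (hd : p ≤ 2 * d) :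
    2 * (d : ℚ) * (2 * p - 2) * (2 * d - p + 1) * nrm N d (p - 1)
      - 2 * (p : ℚ) * (2 * p - 1) * (2 * p - 2) * nrm N d p =
    ∑ u ∈ antidiagonal d, ∑ v ∈ antidiagonal p,
      ((u.1 : ℚ) ^ 3 * (2 * v.2 * (2 * v.2 - 1) * (2 * v.2 - 2))
        - (u.1 : ℚ) ^ 2 * u.2 * (2 * v.1) * (2 * v.2 * (2 * v.2 - 1))) * nrm N u.1 v.1 * nrm N u.2 v.2 := by
  obtain ⟨p, rfl⟩ : ∃ q, p = q + 1 := ⟨p - 1, by omega⟩
  rcases p with _ | p
  · have e : ∀ u : ℕ × ℕ, ∑ v ∈ antidiagonal (0 + 1),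
      ((u.1 : ℚ) ^ 3 * (2 * v.2 * (2 * v.2 - 1) * (2 * v.2 - 2))
        - (u.1 : ℚ) ^ 2 * u.2 * (2 * v.1) * (2 * v.2 * (2 * v.2 - 1))) * nrm N u.1 v.1 * nrm N u.2 v.2 = 0 := by
      intro u
      simp [Finset.Nat.antidiagonal_succ]
    rw [Finset.sum_congr rfl (fun u _ => e u)]
    simp
  · -- p + 2, a = 2p+1, b = 2d - p - 2
    obtain ⟨b, hb⟩ : ∃ b, b + (p + 2) = 2 * d := ⟨2 * d - (p + 2), by omega⟩
    have h1 := h.wdvv1 d (2 * p + 1) b
    have c1 := conv_eval N h.dimension 3 0 0 0 3 0 d (2 * p + 1) b (p + 2) (by ring) (by omega)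
    have c2 := conv_eval N h.dimension 2 1 0 1 2 0 d (2 * p + 1) b (p + 2) (by ring) (by omega)
    have n1 : ((2 * p + 1).factorial : ℚ) ≠ 0 := by exact_mod_cast Nat.factorial_ne_zero _
    have n2 : (b.factorial : ℚ) ≠ 0 := by exact_mod_cast Nat.factorial_ne_zero _
    have nn : ((2 * p + 1).factorial : ℚ) * (b.factorial : ℚ) ≠ 0 := mul_ne_zero n1 n2
    rw [div_eq_iff nn] at c1 c2
    rw [c1, c2] at h1
    unfold der at h1
    rw [eval_nrm N d (p + 1) (2 * p + 1 + 1) (b + 1) (by ring) (by omega),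
      eval_nrm N d (p + 2) (2 * p + 1 + 3) (b + 0) (by ring) (by omega)] at h1
    have f1 : ((2 * p + 1 + 1).factorial : ℚ) = (2 * p + 2) * (2 * p + 1).factorial := by
      rw [Nat.factorial_succ]; push_cast; ring
    have f2 : ((2 * p + 1 + 3).factorial : ℚ) = (2 * p + 4) * (2 * p + 3) * (2 * p + 2) * (2 * p + 1).factorial := by
      rw [Nat.factorial_succ, Nat.factorial_succ, Nat.factorial_succ]; push_cast; ring
    have f3 : ((b + 1).factorial : ℚ) = (b + 1) * b.factorial := by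
      rw [Nat.factorial_succ]; push_cast; ring
    rw [f1, f2, f3, ← sub_mul, ← Finset.sum_sub_distrib] at h1
    have hbq : (b : ℚ) = 2 * d - p - 2 := by
      have : ((b + (p + 2) : ℕ) : ℚ) = ((2 * d : ℕ) : ℚ) := by rw [hb]
      push_cast at this; linarith
    have key : (2 * (d : ℚ) * (2 * ((p + 1 + 1 : ℕ) : ℚ) - 2) * (2 * d - ((p + 1 + 1 : ℕ) : ℚ) + 1) * nrm N d (p + 1)
      - 2 * ((p + 1 + 1 : ℕ) : ℚ) * (2 * ((p + 1 + 1 : ℕ) : ℚ) - 1) * (2 * ((p + 1 + 1 : ℕ) : ℚ) - 2) * nrm N d (p + 2)) *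
        (((2 * p + 1).factorial : ℚ) * (b.factorial : ℚ)) =
        (∑ u ∈ antidiagonal d, ∑ v ∈ antidiagonal (p + 1 + 1),
      ((u.1 : ℚ) ^ 3 * (2 * v.2 * (2 * v.2 - 1) * (2 * v.2 - 2))
        - (u.1 : ℚ) ^ 2 * u.2 * (2 * v.1) * (2 * v.2 * (2 * v.2 - 1))) * nrm N u.1 v.1 * nrm N u.2 v.2) *
        (((2 * p + 1).factorial : ℚ) * (b.factorial : ℚ)) := by
      refine Eq.trans ?_ (h1.trans ?_)
      · rw [add_zero, hbq]; push_cast; ring
      · congr 1
        apply Finset.sum_congr rfl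
        intro u _
        rw [← Finset.sum_sub_distrib]
        apply Finset.sum_congr rfl
        intro v _
        have g1 : ((2 * v.2).descFactorial 3 : ℚ) = 2 * v.2 * (2 * v.2 - 1) * (2 * v.2 - 2) := by
          rcases Nat.eq_zero_or_pos v.2 with h | h
          · simp [h]
          · obtain ⟨w, hw⟩ : ∃ w, v.2 = w + 1 := ⟨v.2 - 1, by omega⟩
            rw [hw]
            have e1 : 2 * (w + 1) - 1 = 2 * w + 1 := by omega
            have e2 : 2 * (w + 1) - 2 = 2 * w := by omega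
            simp only [Nat.descFactorial_succ, Nat.descFactorial_zero, Nat.sub_zero, mul_one, e1, e2]
            push_cast; ring
        have g2 : ((2 * v.2).descFactorial 2 : ℚ) = 2 * v.2 * (2 * v.2 - 1) := by
          rcases Nat.eq_zero_or_pos v.2 with h | h
          · simp [h]
          · obtain ⟨w, hw⟩ : ∃ w, v.2 = w + 1 := ⟨v.2 - 1, by omega⟩
            rw [hw]
            have e1 : 2 * (w + 1) - 1 = 2 * w + 1 := by omega
            simp only [Nat.descFactorial_succ, Nat.descFactorial_zero, Nat.sub_zero, mul_one, e1]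
            push_cast; ring
        rw [g1, g2]
        simp only [Nat.descFactorial_zero, Nat.descFactorial_one, Nat.cast_one, pow_zero, pow_one]
        push_cast
        ring
    exact mul_right_cancel₀ nn key



lemma desc2 (n : ℕ) : ((2 * n).descFactorial 2 : ℚ) = 2 * n * (2 * n - 1) := by
  rcases Nat.eq_zero_or_pos n with h | h
  · simp [h]
  · obtain ⟨w, hw⟩ : ∃ w, n = w + 1 := ⟨n - 1, by omega⟩
    rw [hw]
    have e1 : 2 * (w + 1) - 1 = 2 * w + 1 := by omega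
    simp only [Nat.descFactorial_succ, Nat.descFactorial_zero, Nat.sub_zero, mul_one, e1]
    push_cast; ring

/-- replacing truncated subtraction in the presence of the factor `nrm` -/
lemma nrm_sub (N : ℕ → ℕ → ℕ → ℚ) (d p : ℕ) :
    ((2 * d - p : ℕ) : ℚ) * nrm N d p = (2 * (d : ℚ) - p) * nrm N d p := by
  by_cases h : p ≤ 2 * d
  · rw [Nat.cast_sub h]; push_cast; ring
  · rw [nrm_out N d p (by omega)]; simp

lemma eqB (N : ℕ → ℕ → ℕ → ℚ) (h : IsCurveCount N) (d p : ℕ) (hp : 1 ≤ p) (hd : p ≤ 2 * d) :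
    (d : ℚ) * (2 * d - p + 1) * (2 * d - p) * nrm N d (p - 1)
      - 2 * (p : ℚ) * (2 * p - 1) * (2 * d - p) * nrm N d p =
    ∑ u ∈ antidiagonal d, ∑ v ∈ antidiagonal p,
      ((u.1 : ℚ) ^ 3 * (2 * v.2 * (2 * v.2 - 1)) * (2 * u.2 - v.2)
        - (u.1 : ℚ) ^ 2 * u.2 * (2 * u.1 - v.1) * (2 * v.2 * (2 * v.2 - 1))) * nrm N u.1 v.1 * nrm N u.2 v.2 := by
  rcases Nat.lt_or_ge p (2 * d) with hlt | hge
  · obtain ⟨p, rfl⟩ : ∃ q, p = q + 1 := ⟨p - 1, by omega⟩
    obtain ⟨b, hb⟩ : ∃ b, b + 1 + (p + 1) = 2 * d := ⟨2 * d - (p + 2), by omega⟩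
    have h1 := h.wdvv2 d (2 * p) b
    have c1 := conv_eval N h.dimension 3 0 0 0 2 1 d (2 * p) b (p + 1) (by ring) (by omega)
    have c2 := conv_eval N h.dimension 2 0 1 1 2 0 d (2 * p) b (p + 1) (by ring) (by omega)
    have n1 : ((2 * p).factorial : ℚ) ≠ 0 := by exact_mod_cast Nat.factorial_ne_zero _
    have n2 : (b.factorial : ℚ) ≠ 0 := by exact_mod_cast Nat.factorial_ne_zero _
    have nn : ((2 * p).factorial : ℚ) * (b.factorial : ℚ) ≠ 0 := mul_ne_zero n1 n2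
    rw [div_eq_iff nn] at c1 c2
    rw [c1, c2] at h1
    unfold der at h1
    rw [eval_nrm N d p (2 * p + 0) (b + 2) (by ring) (by omega),
      eval_nrm N d (p + 1) (2 * p + 2) (b + 1) (by ring) (by omega)] at h1
    have f2 : ((2 * p + 2).factorial : ℚ) = (2 * p + 2) * (2 * p + 1) * (2 * p).factorial := by
      rw [Nat.factorial_succ, Nat.factorial_succ]; push_cast; ring
    have f3 : ((b + 1).factorial : ℚ) = (b + 1) * b.factorial := by
      rw [Nat.factorial_succ]; push_cast; ring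
    have f4 : ((b + 2).factorial : ℚ) = (b + 2) * (b + 1) * b.factorial := by
      rw [Nat.factorial_succ, Nat.factorial_succ]; push_cast; ring
    rw [f2, f3, f4, ← sub_mul, ← Finset.sum_sub_distrib] at h1
    have hbq : (b : ℚ) = 2 * d - p - 2 := by
      have : ((b + 1 + (p + 1) : ℕ) : ℚ) = ((2 * d : ℕ) : ℚ) := by rw [hb]
      push_cast at this; linarith
    have key : ((d : ℚ) * (2 * d - ((p + 1 : ℕ) : ℚ) + 1) * (2 * d - ((p + 1 : ℕ) : ℚ)) * nrm N d p
      - 2 * ((p + 1 : ℕ) : ℚ) * (2 * ((p + 1 : ℕ) : ℚ) - 1) * (2 * d - ((p + 1 : ℕ) : ℚ)) * nrm N d (p + 1)) *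
        (((2 * p).factorial : ℚ) * (b.factorial : ℚ)) =
        (∑ u ∈ antidiagonal d, ∑ v ∈ antidiagonal (p + 1),
      ((u.1 : ℚ) ^ 3 * (2 * v.2 * (2 * v.2 - 1)) * (2 * u.2 - v.2)
        - (u.1 : ℚ) ^ 2 * u.2 * (2 * u.1 - v.1) * (2 * v.2 * (2 * v.2 - 1))) * nrm N u.1 v.1 * nrm N u.2 v.2) *
        (((2 * p).factorial : ℚ) * (b.factorial : ℚ)) := by
      refine Eq.trans ?_ (h1.trans ?_)
      · rw [add_zero, hbq]; push_cast; ring
      · congr 1
        apply Finset.sum_congr rfl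
        intro u _
        rw [← Finset.sum_sub_distrib]
        apply Finset.sum_congr rfl
        intro v _
        rw [desc2]
        simp only [Nat.descFactorial_zero, Nat.descFactorial_one, Nat.cast_one, pow_zero, pow_one]
        have s1 := nrm_sub N u.1 v.1
        have s2 := nrm_sub N u.2 v.2
        linear_combination ((u.1 : ℚ) ^ 3 * (2 * v.2 * (2 * v.2 - 1)) * nrm N u.1 v.1) * s2
          - ((u.1 : ℚ) ^ 2 * u.2 * (2 * v.2 * (2 * v.2 - 1)) * nrm N u.2 v.2) * s1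
    exact mul_right_cancel₀ nn key
  · have hpe : p = 2 * d := le_antisymm hd hge
    subst hpe
    rw [Finset.sum_eq_zero]
    · push_cast; ring
    · intro u hu
      apply Finset.sum_eq_zero
      intro v hv
      rw [Finset.HasAntidiagonal.mem_antidiagonal] at hu hv
      by_cases h1 : 2 * u.1 < v.1
      · rw [nrm_out N _ _ h1]; ring
      by_cases h2 : 2 * u.2 < v.2
      · rw [nrm_out N _ _ h2]; ring
      have e1 : (v.1 : ℚ) = 2 * u.1 := by
        have : v.1 = 2 * u.1 := by omega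
        exact_mod_cast this
      have e2 : (v.2 : ℚ) = 2 * u.2 := by
        have : v.2 = 2 * u.2 := by omega
        exact_mod_cast this
      rw [e1, e2]; ring

lemma nrm_rec (N : ℕ → ℕ → ℕ → ℚ) (h : IsCurveCount N) (d p : ℕ) (hp : 1 ≤ p) (hd : p ≤ 2 * d) :
    (p : ℚ) * (2 * p - 1) * (2 * d - 1) * nrm N d p =
      (d : ℚ) * (2 * d - p + 1) * (2 * d + p - 2) / 2 * nrm N d (p - 1)
      + ∑ u ∈ antidiagonal d, ∑ v ∈ antidiagonal p,
          (u.1 : ℚ) ^ 3 * v.2 * (2 * v.2 - 1) * nrm N u.1 v.1 * nrm N u.2 v.2 := by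
  have hA := eqA N h d p hp hd
  have hB := eqB N h d p hp hd
  have hS : ∑ u ∈ antidiagonal d, ∑ v ∈ antidiagonal p,
          (u.1 : ℚ) ^ 3 * v.2 * (2 * v.2 - 1) * nrm N u.1 v.1 * nrm N u.2 v.2 =
      - (1 / 4) * (∑ u ∈ antidiagonal d, ∑ v ∈ antidiagonal p,
      ((u.1 : ℚ) ^ 3 * (2 * v.2 * (2 * v.2 - 1) * (2 * v.2 - 2))
        - (u.1 : ℚ) ^ 2 * u.2 * (2 * v.1) * (2 * v.2 * (2 * v.2 - 1))) * nrm N u.1 v.1 * nrm N u.2 v.2)
      - (1 / 2) * (∑ u ∈ antidiagonal d, ∑ v ∈ antidiagonal p,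
      ((u.1 : ℚ) ^ 3 * (2 * v.2 * (2 * v.2 - 1)) * (2 * u.2 - v.2)
        - (u.1 : ℚ) ^ 2 * u.2 * (2 * u.1 - v.1) * (2 * v.2 * (2 * v.2 - 1))) * nrm N u.1 v.1 * nrm N u.2 v.2) := by
    rw [Finset.mul_sum, Finset.mul_sum, ← Finset.sum_sub_distrib]
    apply Finset.sum_congr rfl
    intro u _
    rw [Finset.mul_sum, Finset.mul_sum, ← Finset.sum_sub_distrib]
    apply Finset.sum_congr rfl
    intro v _
    ring
  rw [hS, ← hA, ← hB]
  ring

lemma nrm_top (N : ℕ → ℕ → ℕ → ℚ) (h : IsCurveCount N) (d : ℕ) :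
    2 * (d : ℚ) * (2 * d - 1) * (2 * d - 2) * nrm N d 0 =
    ∑ u ∈ antidiagonal d, 4 * (u.1 : ℚ) ^ 2 * (u.2 - u.1) * nrm N u.1 0 * nrm N u.2 1 := by
  have h0 : ∀ p, nrm N 0 p = 0 := by
    intro p
    rcases Nat.eq_zero_or_pos p with hp | hp
    · subst hp; simp [nrm, h.deg_zero]
    · exact nrm_out N 0 p (by omega)
  rcases d with _ | _ | d
  · simp [h0]
  · simp [Finset.Nat.antidiagonal_succ, h0]
  · obtain ⟨b, hb⟩ : ∃ b, b + 3 = 2 * (d + 1 + 1) := ⟨2 * d + 1, by omega⟩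
    have h1 := h.wdvv5 (d + 1 + 1) 0 b
    have c1 := conv_eval N h.dimension 1 1 1 1 1 1 (d + 1 + 1) 0 b 1 (by ring) (by omega)
    have c2 := conv_eval N h.dimension 1 2 0 1 0 2 (d + 1 + 1) 0 b 1 (by ring) (by omega)
    have c3 := conv_eval N h.dimension 2 0 1 0 2 1 (d + 1 + 1) 0 b 1 (by ring) (by omega)
    have c4 := conv_eval N h.dimension 2 1 0 0 1 2 (d + 1 + 1) 0 b 1 (by ring) (by omega)
    have n2 : (b.factorial : ℚ) ≠ 0 := by exact_mod_cast Nat.factorial_ne_zero _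
    have nn : ((0 : ℕ).factorial : ℚ) * (b.factorial : ℚ) ≠ 0 := by simpa using n2
    rw [div_eq_iff nn] at c1 c2 c3 c4
    rw [c1, c2, c3, c4] at h1
    unfold der at h1
    rw [eval_nrm N (d + 1 + 1) 0 (0 + 0) (b + 3) (by ring) (by omega)] at h1
    have f4 : ((b + 3).factorial : ℚ) = (b + 3) * (b + 2) * (b + 1) * b.factorial := by
      rw [Nat.factorial_succ, Nat.factorial_succ, Nat.factorial_succ]; push_cast; ring
    have hbq : (b : ℚ) = 2 * (d + 1 + 1) - 3 := by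
      have : ((b + 3 : ℕ) : ℚ) = ((2 * (d + 1 + 1) : ℕ) : ℚ) := by rw [hb]
      push_cast at this; linarith
    rw [f4, ← sub_mul, ← add_mul, ← sub_mul, ← Finset.sum_sub_distrib, ← Finset.sum_add_distrib,
      ← Finset.sum_sub_distrib] at h1
    have key : (2 * ((d + 1 + 1 : ℕ) : ℚ) * (2 * ((d + 1 + 1 : ℕ) : ℚ) - 1) * (2 * ((d + 1 + 1 : ℕ) : ℚ) - 2)
        * nrm N (d + 1 + 1) 0) * (((0 : ℕ).factorial : ℚ) * (b.factorial : ℚ)) =
        (∑ u ∈ antidiagonal (d + 1 + 1), (4 * (u.1 : ℚ) ^ 3 * (2 * u.2 - 1) * nrm N u.1 0 * nrm N u.2 1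
          - 4 * (u.1 : ℚ) * (u.2 : ℚ) ^ 2 * (2 * u.2 - 1) * nrm N u.1 1 * nrm N u.2 0)) *
        (((0 : ℕ).factorial : ℚ) * (b.factorial : ℚ)) := by
      refine Eq.trans ?_ (h1.trans ?_)
      · rw [hbq]; push_cast; simp; ring
      · congr 1
        apply Finset.sum_congr rfl
        intro u _
        have a1 : ((2 * u.2).descFactorial 2 : ℚ) = 2 * u.2 * (2 * u.2 - 1) := desc2 u.2
        have s2 : ((2 * u.2 - 1 : ℕ) : ℚ) * nrm N u.2 1 = (2 * (u.2 : ℚ) - 1) * nrm N u.2 1 := by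
          have := nrm_sub N u.2 1
          rw [Nat.cast_one] at this
          exact this
        simp [Finset.Nat.antidiagonal_succ]
        simp at a1
        rw [a1]
        linear_combination (4 * (u.1 : ℚ) ^ 3 * nrm N u.1 0) * s2
    have key2 := mul_right_cancel₀ nn key
    rw [key2, Finset.sum_sub_distrib]
    have sw : ∑ u ∈ antidiagonal (d + 1 + 1), 4 * (u.1 : ℚ) * (u.2 : ℚ) ^ 2 * (2 * u.2 - 1) * nrm N u.1 1 * nrm N u.2 0
      = ∑ u ∈ antidiagonal (d + 1 + 1), 4 * (u.2 : ℚ) * (u.1 : ℚ) ^ 2 * (2 * u.1 - 1) * nrm N u.2 1 * nrm N u.1 0 := by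
      rw [← Finset.Nat.sum_antidiagonal_swap]
      rfl
    rw [sw, ← Finset.sum_sub_distrib]
    apply Finset.sum_congr rfl
    intro u _
    ring

theorem uniq (F G : ℕ → ℕ → ℚ) (F0 : ∀ p, F 0 p = 0) (G0 : ∀ p, G 0 p = 0)
    (Fo : ∀ d p : ℕ, 2 * d < p → F d p = 0) (Go : ∀ d p : ℕ, 2 * d < p → G d p = 0)
    (F1 : F 1 0 = 1 / 2) (G1 : G 1 0 = 1 / 2)
    (F_top : ∀ d : ℕ, 2 * (d : ℚ) * (2 * d - 1) * (2 * d - 2) * F d 0 =
      ∑ u ∈ antidiagonal d, 4 * (u.1 : ℚ) ^ 2 * (u.2 - u.1) * F u.1 0 * F u.2 1)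
    (G_top : ∀ d : ℕ, 2 * (d : ℚ) * (2 * d - 1) * (2 * d - 2) * G d 0 =
      ∑ u ∈ antidiagonal d, 4 * (u.1 : ℚ) ^ 2 * (u.2 - u.1) * G u.1 0 * G u.2 1)
    (F_rec : ∀ d p : ℕ, 1 ≤ p → p ≤ 2 * d → (p : ℚ) * (2 * p - 1) * (2 * d - 1) * F d p =
      (d : ℚ) * (2 * d - p + 1) * (2 * d + p - 2) / 2 * F d (p - 1)
      + ∑ u ∈ antidiagonal d, ∑ v ∈ antidiagonal p,
          (u.1 : ℚ) ^ 3 * v.2 * (2 * v.2 - 1) * F u.1 v.1 * F u.2 v.2)
    (G_rec : ∀ d p : ℕ, 1 ≤ p → p ≤ 2 * d → (p : ℚ) * (2 * p - 1) * (2 * d - 1) * G d p =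
      (d : ℚ) * (2 * d - p + 1) * (2 * d + p - 2) / 2 * G d (p - 1)
      + ∑ u ∈ antidiagonal d, ∑ v ∈ antidiagonal p,
          (u.1 : ℚ) ^ 3 * v.2 * (2 * v.2 - 1) * G u.1 v.1 * G u.2 v.2) :
    ∀ d p, F d p = G d p := by
  intro d
  induction d using Nat.strong_induction_on with
  | _ d ih =>
    intro p
    induction p with
    | zero =>
      rcases d with _ | _ | d
      · rw [F0, G0]
      · rw [F1, G1]
      · have hs : ∑ u ∈ antidiagonal (d + 1 + 1), 4 * (u.1 : ℚ) ^ 2 * (u.2 - u.1) * F u.1 0 * F u.2 1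
          = ∑ u ∈ antidiagonal (d + 1 + 1), 4 * (u.1 : ℚ) ^ 2 * (u.2 - u.1) * G u.1 0 * G u.2 1 := by
          apply Finset.sum_congr rfl
          intro u hu
          rw [Finset.HasAntidiagonal.mem_antidiagonal] at hu
          rcases Nat.eq_zero_or_pos u.1 with h1 | h1
          · simp [h1]
          rcases Nat.eq_zero_or_pos u.2 with h2 | h2
          · rw [h2, F0, G0]; ring
          rw [ih u.1 (by omega) 0, ih u.2 (by omega) 1]
        have e := (F_top (d + 1 + 1)).trans (hs.trans (G_top (d + 1 + 1)).symm)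
        have hd : (0 : ℚ) ≤ d := Nat.cast_nonneg d
        have h2 : 0 < 2 * ((d + 1 + 1 : ℕ) : ℚ) := by push_cast; linarith
        have h3 : 0 < (2 * ((d + 1 + 1 : ℕ) : ℚ) - 1) := by push_cast; linarith
        have h4 : 0 < (2 * ((d + 1 + 1 : ℕ) : ℚ) - 2) := by push_cast; linarith
        exact mul_left_cancel₀ (mul_pos (mul_pos h2 h3) h4).ne' e
    | succ p ihp =>
      by_cases h : 2 * d < p + 1
      · rw [Fo _ _ h, Go _ _ h]
      · have hs : ∑ u ∈ antidiagonal d, ∑ v ∈ antidiagonal (p + 1),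
          (u.1 : ℚ) ^ 3 * v.2 * (2 * v.2 - 1) * F u.1 v.1 * F u.2 v.2 =
          ∑ u ∈ antidiagonal d, ∑ v ∈ antidiagonal (p + 1),
          (u.1 : ℚ) ^ 3 * v.2 * (2 * v.2 - 1) * G u.1 v.1 * G u.2 v.2 := by
          apply Finset.sum_congr rfl
          intro u hu
          rw [Finset.HasAntidiagonal.mem_antidiagonal] at hu
          apply Finset.sum_congr rfl
          intro v _
          rcases Nat.eq_zero_or_pos u.1 with h1 | h1
          · simp [h1]
          rcases Nat.eq_zero_or_pos u.2 with h2 | h2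
          · rw [h2, F0, G0]; ring
          rw [ih u.1 (by omega) v.1, ih u.2 (by omega) v.2]
        have e1 := F_rec d (p + 1) (by omega) (by omega)
        have e2 := G_rec d (p + 1) (by omega) (by omega)
        rw [hs] at e1
        have e3 : p + 1 - 1 = p := by omega
        rw [e3, ihp] at e1
        rw [e3] at e2
        have e := e1.trans e2.symm
        have hd : (1 : ℚ) ≤ d := by
          have : 1 ≤ d := by omega
          exact_mod_cast this
        have hp : (0 : ℚ) ≤ p := Nat.cast_nonneg p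
        have h2 : 0 < ((p + 1 : ℕ) : ℚ) := by push_cast; linarith
        have h3 : 0 < (2 * ((p + 1 : ℕ) : ℚ) - 1) := by push_cast; linarith
        have h4 : 0 < (2 * (d : ℚ) - 1) := by linarith
        exact mul_left_cancel₀ (mul_pos (mul_pos h2 h3) h4).ne' e

lemma f_T1 (d : ℕ) (hd : 1 ≤ d) : (2 * (d : ℚ) - 1) * (f d 1 - (d : ℚ) ^ 2 * f d 0) =
      ∑ u ∈ antidiagonal d, (u.1 : ℚ) * ((u.1 : ℚ) ^ 2 * f u.1 0) * f u.2 1 := by
  have h := f_rec d 1 le_rfl (by omega)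
  have e : ∀ u : ℕ × ℕ, ∑ v ∈ antidiagonal 1,
      (u.1 : ℚ) ^ 3 * v.2 * (2 * v.2 - 1) * f u.1 v.1 * f u.2 v.2 =
      (u.1 : ℚ) * ((u.1 : ℚ) ^ 2 * f u.1 0) * f u.2 1 := by
    intro u
    have h1 : antidiagonal 1 = {((0, 1) : ℕ × ℕ), (1, 0)} := by decide
    rw [h1, Finset.sum_pair (by decide)]
    simp only [Nat.cast_one, Nat.cast_zero]
    ring
  rw [Finset.sum_congr rfl (fun u _ => e u)] at h
  simp only [Nat.sub_self, Nat.cast_one] at h
  linear_combination h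

lemma f_T2 (d : ℕ) : (2 * (d : ℚ) - 1) * ((d : ℚ) - 1) * ((d : ℚ) ^ 2 * f d 0) =
      (d : ℚ) * ∑ u ∈ antidiagonal d, ((u.2 : ℚ) - u.1) * ((u.1 : ℚ) ^ 2 * f u.1 0) * f u.2 1 := by
  have h := f_top d
  have e : ∑ u ∈ antidiagonal d, 4 * (u.1 : ℚ) ^ 2 * (u.2 - u.1) * f u.1 0 * f u.2 1 =
      4 * ∑ u ∈ antidiagonal d, ((u.2 : ℚ) - u.1) * ((u.1 : ℚ) ^ 2 * f u.1 0) * f u.2 1 := by
    rw [Finset.mul_sum]
    apply Finset.sum_congr rfl
    intro u _
    ring
  rw [e] at h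
  linear_combination (d : ℚ) / 4 * h

lemma f_zero_nonneg (d : ℕ) : 0 ≤ f d 0 := by
  have h := top_nonneg (fun d => (d : ℚ) ^ 2 * f d 0) (fun d => f d 1) (by simp) (f_zero 1)
    (by simp [f_one_zero]) (fun d hd => f_T1 d hd) (fun d _ => f_T2 d) d
  rcases Nat.eq_zero_or_pos d with h0 | h0
  · subst h0; rw [f_zero]
  · have hd : (0 : ℚ) < (d : ℚ) ^ 2 := by
      have : (0 : ℚ) < d := by exact_mod_cast h0
      positivity
    exact nonneg_of_mul_nonneg_right h.1 hd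

lemma f_nonneg : ∀ d p, 0 ≤ f d p := f_nonneg_of f_zero_nonneg

lemma f_one_pos : ∀ d : ℕ, 1 ≤ d → 0 < f d 1 := by
  intro d
  induction d using Nat.strong_induction_on with
  | _ d ih =>
    intro hd
    have h := f_T1 d hd
    have hdq : (1 : ℚ) ≤ d := by exact_mod_cast hd
    rcases Nat.lt_or_ge d 2 with h2 | h2
    · have : d = 1 := by omega
      subst this
      have e : ∑ u ∈ antidiagonal (1 : ℕ), (u.1 : ℚ) * ((u.1 : ℚ) ^ 2 * f u.1 0) * f u.2 1 = 0 := by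
        simp [Finset.Nat.antidiagonal_succ, f_zero]
      rw [e, f_one_zero] at h
      norm_num at h
      linarith
    · have hs : (1 : ℚ) / 2 * f (d - 1) 1 ≤
          ∑ u ∈ antidiagonal d, (u.1 : ℚ) * ((u.1 : ℚ) ^ 2 * f u.1 0) * f u.2 1 := by
        have hm : ((1, d - 1) : ℕ × ℕ) ∈ antidiagonal d := by
          rw [Finset.HasAntidiagonal.mem_antidiagonal]; omega
        have := Finset.single_le_sum (f := fun u : ℕ × ℕ =>
          (u.1 : ℚ) * ((u.1 : ℚ) ^ 2 * f u.1 0) * f u.2 1) (s := antidiagonal d) ?_ hm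
        · simpa [f_one_zero] using this
        · intro u _
          have c1 := f_nonneg u.1 0
          have c2 := f_nonneg u.2 1
          positivity
      have h3 := ih (d - 1) (by omega) (by omega)
      have h4 := f_zero_nonneg d
      have h5 : 0 < 2 * (d : ℚ) - 1 := by linarith
      have h6 : 0 < (2 * (d : ℚ) - 1) * (f d 1 - (d : ℚ) ^ 2 * f d 0) := by rw [h]; linarith
      have h7 := (mul_pos_iff_of_pos_left h5).mp h6
      have h8 : 0 ≤ (d : ℚ) ^ 2 * f d 0 := by positivity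
      linarith

lemma f_pos (d p : ℕ) (hp : 1 ≤ p) (hd : p ≤ 2 * d) : 0 < f d p := by
  induction p, hp using Nat.le_induction with
  | base => exact f_one_pos d (by omega)
  | succ p hp ih =>
    have ih' := ih (by omega)
    have h := f_rec d (p + 1) (by omega) hd
    have hpq : (1 : ℚ) ≤ p := by exact_mod_cast hp
    have hdq : ((p : ℚ) + 1) ≤ 2 * d := by exact_mod_cast hd
    have hS : 0 ≤ ∑ u ∈ antidiagonal d, ∑ v ∈ antidiagonal (p + 1),
          (u.1 : ℚ) ^ 3 * v.2 * (2 * v.2 - 1) * f u.1 v.1 * f u.2 v.2 := by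
      apply Finset.sum_nonneg
      intro u _
      apply Finset.sum_nonneg
      intro v _
      have c1 : 0 ≤ (v.2 : ℚ) * (2 * v.2 - 1) := by
        rcases Nat.eq_zero_or_pos v.2 with h | h
        · simp [h]
        · have : (1 : ℚ) ≤ v.2 := by exact_mod_cast h
          nlinarith
      have c2 := f_nonneg u.1 v.1
      have c3 := f_nonneg u.2 v.2
      have e : (u.1 : ℚ) ^ 3 * v.2 * (2 * v.2 - 1) * f u.1 v.1 * f u.2 v.2 =
        (u.1 : ℚ) ^ 3 * ((v.2 : ℚ) * (2 * v.2 - 1)) * f u.1 v.1 * f u.2 v.2 := by ring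
      rw [e]
      positivity
    have e3 : p + 1 - 1 = p := by omega
    rw [e3] at h
    push_cast at h
    have b1 : 0 < (d : ℚ) := by linarith
    have b2 : 0 < 2 * (d : ℚ) - ((p : ℚ) + 1) + 1 := by linarith
    have b3 : 0 < 2 * (d : ℚ) + ((p : ℚ) + 1) - 2 := by linarith
    have hR : 0 < (d : ℚ) * (2 * d - ((p : ℚ) + 1) + 1) * (2 * d + ((p : ℚ) + 1) - 2) / 2 * f d p := by
      positivity
    have hL : 0 < ((p : ℚ) + 1) * (2 * ((p : ℚ) + 1) - 1) * (2 * d - 1) := by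
      have a1 : 0 < (p : ℚ) + 1 := by linarith
      have a2 : 0 < 2 * ((p : ℚ) + 1) - 1 := by linarith
      have a3 : 0 < 2 * (d : ℚ) - 1 := by linarith
      positivity
    have hT : 0 < ((p : ℚ) + 1) * (2 * ((p : ℚ) + 1) - 1) * (2 * d - 1) * f d (p + 1) := by
      rw [h]; linarith
    exact (mul_pos_iff_of_pos_left hL).mp hT

lemma f_upper (d p : ℕ) : f d p ≤ 1024 ^ d := by
  rcases Nat.eq_zero_or_pos d with h0 | h0
  · subst h0; rw [f_zero]; positivity
  by_cases hp : 2 * d < p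
  · rw [f_out d p hp]; positivity
  have h := upper_weight f f_nonneg f_zero f_out f_one_zero f_top
    (fun d p h1 h2 => f_rec d p h1 h2) sum_inv_le
    (fun a b p ha hb hp => weight_sum choose_conv a b p ha hb hp) d p h0
  refine h.trans ?_
  have h1 : ((2 * d + p).choose (2 * p) : ℚ) ≤ 2 ^ (2 * d + p) := by
    exact_mod_cast Nat.choose_le_two_pow _ _
  have h2 : (2 : ℚ) ^ (2 * d + p) ≤ 2 ^ (4 * d) := pow_le_pow_right₀ (by norm_num) (by omega)
  have h3 : (2 : ℚ) ^ p ≤ 2 ^ (2 * d) := pow_le_pow_right₀ (by norm_num) (by omega)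
  have hdq : (1 : ℚ) ≤ d := by exact_mod_cast h0
  have h4 : (16 : ℚ) ^ d / (32 * (d : ℚ) ^ 4) ≤ 16 ^ d := by
    apply div_le_self (by positivity)
    have : (1 : ℚ) ≤ (d : ℚ) ^ 4 := one_le_pow₀ hdq
    linarith
  have h5 : (0 : ℚ) ≤ (16 : ℚ) ^ d / (32 * (d : ℚ) ^ 4) := by positivity
  calc ((2 * d + p).choose (2 * p) : ℚ) * 2 ^ p * (16 ^ d / (32 * (d : ℚ) ^ 4))
      ≤ 2 ^ (4 * d) * 2 ^ (2 * d) * 16 ^ d := by
        apply mul_le_mul _ h4 h5 (by positivity)
        exact mul_le_mul (h1.trans h2) h3 (by positivity) (by positivity)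
    _ = 1024 ^ d := by
        rw [pow_mul, pow_mul, ← mul_pow, ← mul_pow]
        norm_num

lemma v10 : f 1 0 = 1 / 2 := f_one_zero
lemma v11 : f 1 1 = 1 / 2 := by rw [f]; norm_num [v10]
lemma v12 : f 1 2 = 1 / 12 := by rw [f]; norm_num [v11]
lemma v13 (p : ℕ) : f 1 (p + 3) = 0 := f_out _ _ (by omega)
lemma v20 : f 2 0 = 0 := by rw [f]; norm_num [Fin.sum_univ_succ, v10, v11]
lemma v21 : f 2 1 = 1 / 12 := by rw [f]; norm_num [Fin.sum_univ_succ, v10, v11, v20]
lemma v22 : f 2 2 = 1 / 12 := by rw [f]; norm_num [Fin.sum_univ_succ, v10, v11, v12, v21]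
lemma v23 : f 2 3 = 1 / 40 := by
  rw [f]; norm_num [Fin.sum_univ_succ, v10, v11, v12, f_out 1 3 (by norm_num), v22]
lemma v24 : f 2 4 = 23 / 10080 := by
  rw [f]; norm_num [Fin.sum_univ_succ, v10, v11, v12, f_out 1 3 (by norm_num), f_out 1 4 (by norm_num), v23]
lemma v30 : f 3 0 = 1 / 720 := by
  rw [f]; norm_num [Fin.sum_univ_succ, v10, v11, v20, v21]
lemma v31 : f 3 1 = 1 / 48 := by
  rw [f]; norm_num [Fin.sum_univ_succ, v10, v11, v20, v21, v30]
lemma v32 : f 3 2 = 5 / 96 := by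
  rw [f]; norm_num [Fin.sum_univ_succ, v10, v11, v12, v20, v21, v22, v31]
lemma v33 : f 3 3 = 19 / 432 := by
  rw [f]; norm_num [Fin.sum_univ_succ, v10, v11, v12, v20, v21, v22, v23, v32, f_out 1 3 (by norm_num)]
lemma v34 : f 3 4 = 41 / 2520 := by
  rw [f]; norm_num [Fin.sum_univ_succ, v10, v11, v12, v20, v21, v22, v23, v24, v33, f_out 1 3 (by norm_num), f_out 1 4 (by norm_num)]
lemma v35 : f 3 5 = 137 / 50400 := by
  rw [f]; norm_num [Fin.sum_univ_succ, v10, v11, v12, v20, v21, v22, v23, v24, v34, f_out 1 3 (by norm_num), f_out 1 4 (by norm_num), f_out 1 5 (by norm_num), f_out 2 5 (by norm_num)]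
lemma v36 : f 3 6 = 167 / 997920 := by
  rw [f]; norm_num [Fin.sum_univ_succ, v10, v11, v12, v20, v21, v22, v23, v24, v35, f_out 1 3 (by norm_num), f_out 1 4 (by norm_num), f_out 1 5 (by norm_num), f_out 2 5 (by norm_num), f_out 1 6 (by norm_num), f_out 2 6 (by norm_num)]

lemma values : curveCount 1 2 = 2 ∧ curveCount 2 4 = 92 ∧ curveCount 3 6 = 80160 := by
  refine ⟨?_, ?_, ?_⟩
  · rw [curveCount, v12]; norm_num [Nat.factorial]
  · rw [curveCount, v24]; norm_num [Nat.factorial]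
  · rw [curveCount, v36]; norm_num [Nat.factorial]

theorem result :
    (∀ N : ℕ → ℕ → ℕ → ℚ, IsCurveCount N →
      ∀ d p : ℕ, p ≤ 2 * d → N d (2 * p) (2 * d - p) = curveCount d p) ∧
    (curveCount 1 2 = 2 ∧ curveCount 2 4 = 92 ∧ curveCount 3 6 = 80160) ∧
    ∀ α β : ℕ, 0 < α → 0 < β → β ≤ 2 * α →
      ∃ L : ℝ, 0 < L ∧ Tendsto (fun d : ℕ =>
        ((curveCount (α * d) (β * d) : ℝ) / (((2 * α + β) * d).factorial : ℝ)) ^ (1 / (d : ℝ)))
        atTop (𝓝 L) := by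
  refine ⟨?_, values, ?_⟩
  · intro N h d p hp
    have h0 : ∀ p, nrm N 0 p = 0 := by
      intro p
      rcases Nat.eq_zero_or_pos p with hp | hp
      · subst hp; simp [nrm, h.deg_zero]
      · exact nrm_out N 0 p (by omega)
    have h1 : nrm N 1 0 = 1 / 2 := by
      simp [nrm, h.line]
    have hu := uniq (nrm N) f h0 f_zero (nrm_out N) f_out h1 f_one_zero (nrm_top N h) f_top
      (fun d p h1 h2 => nrm_rec N h d p h1 h2) (fun d p h1 h2 => f_rec d p h1 h2) d p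
    rw [curveCount, ← hu]
    exact eval_nrm N d p (2 * p) (2 * d - p) rfl (by omega)
  · intro α β hα hβ hβα
    obtain ⟨L₁, hL₁, ht₁⟩ := growth_limit (fun n => ((f (α * n) (β * n) : ℚ) : ℝ)) (1 / 32)
      (1024 ^ α) (by norm_num)
      (by
        intro n hn
        have : 0 < f (α * n) (β * n) := by
          apply f_pos
          · exact Nat.mul_pos hβ hn
          · calc β * n ≤ (2 * α) * n := Nat.mul_le_mul_right n hβα
              _ = 2 * (α * n) := by ring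
        exact_mod_cast this)
      (by
        intro m n hm hn
        have := superadd f f_nonneg (fun d p h1 h2 => f_rec d p h1 h2) α β hα hβ hβα m n hm hn
        have h2 : (((1 / 32 * f (α * m) (β * m) * f (α * n) (β * n) : ℚ)) : ℝ) ≤
          ((f (α * (m + n)) (β * (m + n)) : ℚ) : ℝ) := by exact_mod_cast this
        push_cast at h2
        exact h2)
      (by
        intro n _
        have h2 : ((f (α * n) (β * n) : ℚ) : ℝ) ≤ (((1024 : ℚ) ^ (α * n) : ℚ) : ℝ) := by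
          exact_mod_cast f_upper (α * n) (β * n)
        push_cast at h2
        rw [← pow_mul]
        exact h2)
    obtain ⟨L₂, hL₂, ht₂⟩ := growth_limit
      (fun n => ((((2 * α + β) * n).choose (2 * β * n) : ℕ) : ℝ)) 1 (2 ^ (2 * α + β)) (by norm_num)
      (by
        intro n hn
        have : 0 < ((2 * α + β) * n).choose (2 * β * n) := by
          apply Nat.choose_pos
          apply Nat.mul_le_mul_right
          omega
        exact_mod_cast this)
      (by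
        intro m n hm hn
        have : ((2 * α + β) * m).choose (2 * β * m) * ((2 * α + β) * n).choose (2 * β * n) ≤
            ((2 * α + β) * (m + n)).choose (2 * β * (m + n)) := by
          rw [Nat.mul_add, Nat.mul_add, Nat.add_choose_eq]
          have hm : ((2 * β * m, 2 * β * n) : ℕ × ℕ) ∈ antidiagonal (2 * β * m + 2 * β * n) := by
            rw [Finset.HasAntidiagonal.mem_antidiagonal]
          exact Finset.single_le_sum (f := fun u : ℕ × ℕ =>
            ((2 * α + β) * m).choose u.1 * ((2 * α + β) * n).choose u.2)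
            (fun u _ => Nat.zero_le _) hm
        rw [one_mul]
        exact_mod_cast this)
      (by
        intro n _
        have : ((2 * α + β) * n).choose (2 * β * n) ≤ 2 ^ ((2 * α + β) * n) :=
          Nat.choose_le_two_pow _ _
        rw [← pow_mul]
        exact_mod_cast this)
    refine ⟨L₁ / L₂, div_pos hL₁ hL₂, ?_⟩
    refine (ht₁.div ht₂ hL₂.ne').congr ?_
    intro n
    have hf : (0 : ℝ) ≤ ((f (α * n) (β * n) : ℚ) : ℝ) := by exact_mod_cast f_nonneg _ _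
    have hc : (0 : ℝ) ≤ ((((2 * α + β) * n).choose (2 * β * n) : ℕ) : ℝ) := Nat.cast_nonneg _
    rw [Pi.div_apply, ← Real.div_rpow hf hc]
    congr 1
    have hle : 2 * β * n ≤ (2 * α + β) * n := by
      apply Nat.mul_le_mul_right
      omega
    have hsub : (2 * α + β) * n - 2 * β * n = 2 * (α * n) - β * n := by
      rw [← Nat.sub_mul, ← Nat.mul_assoc, ← Nat.sub_mul]
      congr 1
      omega
    have hfac := Nat.choose_mul_factorial_mul_factorial hle
    rw [hsub] at hfac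
    have hfacR : ((((2 * α + β) * n).choose (2 * β * n) : ℕ) : ℝ) * ((2 * β * n).factorial : ℝ) *
      ((2 * (α * n) - β * n).factorial : ℝ) = (((2 * α + β) * n).factorial : ℝ) := by
      exact_mod_cast hfac
    have e2 : 2 * (β * n) = 2 * β * n := by ring
    rw [curveCount, e2, ← hfacR]
    have n1 : ((2 * β * n).factorial : ℝ) ≠ 0 := by exact_mod_cast Nat.factorial_ne_zero _
    have n2 : ((2 * (α * n) - β * n).factorial : ℝ) ≠ 0 := by exact_mod_cast Nat.factorial_ne_zero _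
    have n3 : ((((2 * α + β) * n).choose (2 * β * n) : ℕ) : ℝ) ≠ 0 := by
      have := Nat.choose_pos hle
      exact_mod_cast this.ne'
    push_cast
    field_simp

end Pool.Agent.Results.MP_4d4b4c_ag.RationalCurveGrowth
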