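import Pool.Agent.Helper516.GW.Defs
import Pool.Agent.Helper516.GW.Up2
import Pool.Agent.Helper516.GW.Uniq
import Pool.Agent.Helper516.GW.ExCount
import Pool.Agent.Helper516.GW.Vals

/-!
Rational curves in projective three-space: existence and positivity of the exponential growth rate
for all directions. The counts are the unique solution of the WDVV equations with one line through
two points (`IsCount`), and existence and uniqueness of that solution is part of the theorem.
-/

namespace Pool.Agent.Results.MP_4d4b4c_ag.WdvvGrowth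

open Filter Topology
open scoped Nat
open Pool.Agent.Helper516.GW

/-- Sanity check: the classical numbers of conics (through 4 points: 0; 3 points and 2 lines: 1;
2 points and 4 lines: 4; 1 point and 6 lines: 18; 8 lines: 92). -/
theorem conics {N : ℕ → ℕ → ℕ → ℚ} (h : IsCount N) :
    N 2 4 0 = 0 ∧ N 2 3 2 = 1 ∧ N 2 2 4 = 4 ∧ N 2 1 6 = 18 ∧ N 2 0 8 = 92 :=
  count_deg_two h

/-- There is exactly one family `N` satisfying `IsCount`, and for it the `d`-th roots of
`N_{0, α d}(β d) / ((2 α + β) d)!` converge to a positive real number, for all positive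
integers `α, β` with `β ≤ 2 α`. -/
theorem result :
    (∃! N : ℕ → ℕ → ℕ → ℚ, IsCount N) ∧
    ∀ N : ℕ → ℕ → ℕ → ℚ, IsCount N →
      ∀ α β : ℕ, 0 < α → 0 < β → β ≤ 2 * α →
        ∃ L : ℝ, 0 < L ∧ Tendsto (fun d : ℕ =>
          (((N (α * d) (2 * (α * d) - β * d) (2 * (β * d)) : ℚ) : ℝ) /
            (((2 * α + β) * d)! : ℝ)) ^ (1 / (d : ℝ))) atTop (𝓝 L) := by
  refine ⟨?_, ?_⟩
  · obtain ⟨N, hN⟩ := exists_count
    exact ⟨N, hN, fun N' hN' => unique_count hN' hN⟩
  · intro N hN α β hα hβ hβα
    exact main_limit hN hα hβ hβα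

end Pool.Agent.Results.MP_4d4b4c_ag.WdvvGrowth
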